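import Mathlib

/-! Adapted arrays of bounded quadratic variation and the associated Banach space. -/

namespace Pool.Agent.K4H42.IC

open Finset

/-- `S` is adapted (row `α` vanishes up to time `α`) and its quadratic variation along disjoint
time intervals is at most `v`. -/
def Adm (S : ℕ → ℕ → ℝ) (v : ℝ) : Prop :=
  (∀ α t, t ≤ α → S α t = 0) ∧
    ∀ (A : Finset ℕ) (n : ℕ) (w : ℕ → ℕ), Monotone w →
      ∑ b ∈ range n, ∑ α ∈ A, (S α (w (2 * b + 1)) - S α (w (2 * b))) ^ 2 ≤ v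

theorem Adm.nonneg {S : ℕ → ℕ → ℝ} {v : ℝ} (h : Adm S v) : 0 ≤ v := by
  simpa using h.2 ∅ 0 id monotone_id

theorem Adm.mono {S : ℕ → ℕ → ℝ} {v v' : ℝ} (h : Adm S v) (hv : v ≤ v') : Adm S v' :=
  ⟨h.1, fun A n w hw => (h.2 A n w hw).trans hv⟩

theorem Adm.single {S : ℕ → ℕ → ℝ} {v : ℝ} (h : Adm S v) (A : Finset ℕ) {s t : ℕ} (hst : s ≤ t) :
    ∑ α ∈ A, (S α t - S α s) ^ 2 ≤ v := by
  have := h.2 A 1 (fun l => if l = 0 then s else t) (by
    intro a b hab
    by_cases hb : b = 0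
    · have ha : a = 0 := by omega
      simp [ha, hb]
    · by_cases ha : a = 0
      · simp [ha, hb, hst]
      · simp [ha, hb])
  simpa using this

theorem Adm.sq_le {S : ℕ → ℕ → ℝ} {v : ℝ} (h : Adm S v) (α t : ℕ) : (S α t) ^ 2 ≤ v := by
  have h1 := h.single {α} (Nat.zero_le t)
  have h2 := h.1 α 0 (Nat.zero_le α)
  simpa [h2] using h1

theorem Adm.abs_le {S : ℕ → ℕ → ℝ} {v : ℝ} (h : Adm S v) (α t : ℕ) : |S α t| ≤ Real.sqrt v :=
  Real.abs_le_sqrt (h.sq_le α t)

theorem adm_zero : Adm (fun _ _ => 0) 0 := by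
  refine ⟨fun _ _ _ => rfl, fun A n w _ => ?_⟩
  simp

theorem Adm.smul {S : ℕ → ℕ → ℝ} {v : ℝ} (h : Adm S v) (c : ℝ) :
    Adm (fun α t => c * S α t) (c ^ 2 * v) := by
  refine ⟨fun α t ht => by simp [h.1 α t ht], fun A n w hw => ?_⟩
  have := mul_le_mul_of_nonneg_left (h.2 A n w hw) (sq_nonneg c)
  refine le_trans (le_of_eq ?_) this
  rw [mul_sum]
  refine sum_congr rfl fun b _ => ?_
  rw [mul_sum]
  refine sum_congr rfl fun α _ => ?_
  ring

/-- The unit ball of arrays. -/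
abbrev Ball : Type := {S : ℕ → ℕ → ℝ // Adm S 1}

/-- The big ambient space of bounded functions on the ball. -/
abbrev Big : Type := lp (fun _ : Ball => ℝ) ⊤

/-- Evaluation functions. -/
noncomputable def delBig (α t : ℕ) : Big :=
  ⟨fun S => S.1 α t, memℓp_infty ⟨1, by
    rintro _ ⟨S, rfl⟩
    have := S.2.abs_le α t
    simpa using this⟩⟩

@[simp] theorem delBig_apply (α t : ℕ) (S : Ball) : (delBig α t : Ball → ℝ) S = S.1 α t := rfl

/-- The span of the evaluation functions. -/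
noncomputable def X0 : Submodule ℝ Big :=
  Submodule.span ℝ (Set.range fun p : ℕ × ℕ => delBig p.1 p.2)

/-- The space. -/
noncomputable def XS : Submodule ℝ Big := X0.topologicalClosure

/-- The space as a type. -/
def XT : Type := XS

noncomputable instance : NormedAddCommGroup XT := inferInstanceAs (NormedAddCommGroup XS)
noncomputable instance : NormedSpace ℝ XT := inferInstanceAs (NormedSpace ℝ XS)

noncomputable instance : CompleteSpace XT :=
  (Submodule.isClosed_topologicalClosure X0).completeSpace_coe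

/-- The inclusion in the big space. -/
noncomputable def incl : XT →L[ℝ] Big := XS.subtypeL

theorem norm_incl (x : XT) : ‖incl x‖ = ‖x‖ := rfl

theorem delBig_mem (α t : ℕ) : delBig α t ∈ XS :=
  Submodule.le_topologicalClosure _ (Submodule.subset_span ⟨(α, t), rfl⟩)

/-- The basic vectors. -/
noncomputable def del (α t : ℕ) : XT := ⟨delBig α t, delBig_mem α t⟩

theorem del_eq_zero {α t : ℕ} (h : t ≤ α) : del α t = 0 := by
  apply Subtype.ext
  apply lp.ext
  funext S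
  change S.1 α t = 0
  exact S.2.1 α t h

/-- The coordinate functional. -/
noncomputable def ev (S : Ball) : XT →L[ℝ] ℝ :=
  (lp.evalCLM ℝ (fun _ : Ball => ℝ) ⊤ S).comp incl

theorem ev_apply (S : Ball) (x : XT) : ev S x = (incl x : Ball → ℝ) S := rfl

@[simp] theorem ev_del (S : Ball) (α t : ℕ) : ev S (del α t) = S.1 α t := rfl

theorem norm_ev_le (S : Ball) : ‖ev S‖ ≤ 1 := by
  refine ContinuousLinearMap.opNorm_le_bound _ zero_le_one fun x => ?_
  rw [one_mul, ev_apply]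
  exact lp.norm_apply_le_norm (by simp) (incl x) S

theorem norm_le_of_ev {x : XT} {c : ℝ} (hc : 0 ≤ c) (h : ∀ S : Ball, |ev S x| ≤ c) : ‖x‖ ≤ c := by
  rw [← norm_incl]
  exact lp.norm_le_of_forall_le hc fun S => h S

/-- A closed subspace containing all basic vectors is everything. -/
theorem mem_of_closed (p : Submodule ℝ XT) (hp : IsClosed (p : Set XT))
    (h : ∀ α t, del α t ∈ p) (x : XT) : x ∈ p := by
  have h1 : X0 ≤ p.map XS.subtype := by
    refine Submodule.span_le.2 ?_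
    rintro _ ⟨q, rfl⟩
    exact ⟨del q.1 q.2, h q.1 q.2, rfl⟩
  have h2 : IsClosed ((p.map XS.subtype : Submodule ℝ Big) : Set Big) := by
    have hce : Topology.IsClosedEmbedding (Subtype.val : XT → Big) :=
      (Submodule.isClosed_topologicalClosure X0).isClosedEmbedding_subtypeVal
    exact hce.isClosedMap _ hp
  have h3 : XS ≤ p.map XS.subtype := Submodule.topologicalClosure_minimal _ h1 h2
  obtain ⟨y, hy, hyx⟩ := h3 x.2
  have : y = x := Subtype.ext hyx
  exact this ▸ hy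

theorem clm_ext {F : Type*} [NormedAddCommGroup F] [NormedSpace ℝ F] {f g : XT →L[ℝ] F}
    (h : ∀ α t, f (del α t) = g (del α t)) : f = g := by
  ext x
  have : x ∈ LinearMap.ker (f - g).toLinearMap := by
    refine mem_of_closed _ ?_ ?_ x
    · exact (f - g).isClosed_ker
    · intro α t
      simp [h α t]
  have h2 : (f - g) x = 0 := this
  rw [sub_apply, sub_eq_zero] at h2
  exact h2

/-- The dual. -/
abbrev XD : Type := StrongDual ℝ XT

/-- The array of a functional. -/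
noncomputable def sy (ψ : XD) (α t : ℕ) : ℝ := ψ (del α t)

theorem sy_ext {ψ ψ' : XD} (h : ∀ α t, sy ψ α t = sy ψ' α t) : ψ = ψ' := clm_ext h

theorem exists_mk {S : ℕ → ℕ → ℝ} {v : ℝ} (h : Adm S v) :
    ∃ ψ : XD, (∀ α t, sy ψ α t = S α t) ∧ ‖ψ‖ ≤ Real.sqrt v := by
  rcases eq_or_lt_of_le h.nonneg with hv | hv
  · refine ⟨0, fun α t => ?_, by simp⟩
    have h1 := h.sq_le α t
    rw [← hv] at h1
    have h2 : S α t = 0 := by
      have := le_antisymm h1 (sq_nonneg _)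
      simpa using this
    rw [h2]; rfl
  · have hs : 0 < Real.sqrt v := Real.sqrt_pos.2 hv
    have hb : Adm (fun α t => (Real.sqrt v)⁻¹ * S α t) 1 := by
      have := h.smul (Real.sqrt v)⁻¹
      have e : (Real.sqrt v)⁻¹ ^ 2 * v = 1 := by
        rw [inv_pow, Real.sq_sqrt hv.le]
        exact inv_mul_cancel₀ hv.ne'
      rwa [e] at this
    refine ⟨Real.sqrt v • ev ⟨_, hb⟩, fun α t => ?_, ?_⟩
    · change Real.sqrt v * ((Real.sqrt v)⁻¹ * S α t) = S α t
      rw [← mul_assoc, mul_inv_cancel₀ hs.ne', one_mul]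
    · rw [norm_smul, Real.norm_of_nonneg hs.le]
      have := mul_le_mul_of_nonneg_left (norm_ev_le ⟨_, hb⟩) hs.le
      simpa using this

theorem norm_sq_le_of_adm {ψ : XD} {v : ℝ} (h : Adm (sy ψ) v) : ‖ψ‖ ^ 2 ≤ v := by
  obtain ⟨ψ', h1, h2⟩ := exists_mk h
  have : ψ = ψ' := sy_ext fun α t => (h1 α t).symm
  rw [this]
  calc ‖ψ'‖ ^ 2 ≤ (Real.sqrt v) ^ 2 := by gcongr
    _ = v := Real.sq_sqrt h.nonneg

theorem cs (A : Finset ℕ) (n : ℕ) (c d : ℕ → ℕ → ℝ) :
    |∑ b ∈ range n, ∑ α ∈ A, c b α * d b α| ≤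
      Real.sqrt (∑ b ∈ range n, ∑ α ∈ A, c b α ^ 2) *
        Real.sqrt (∑ b ∈ range n, ∑ α ∈ A, d b α ^ 2) := by
  rw [← sum_product', ← sum_product', ← sum_product']
  rw [← Real.sqrt_mul (sum_nonneg fun _ _ => sq_nonneg _)]
  apply Real.abs_le_sqrt
  exact sum_mul_sq_le_sq_mul_sq _ _ _

theorem adm_sy (ψ : XD) : Adm (sy ψ) (‖ψ‖ ^ 2) := by
  refine ⟨fun α t ht => by simp [sy, del_eq_zero ht], fun A n w hw => ?_⟩
  set c : ℕ → ℕ → ℝ := fun b α => sy ψ α (w (2 * b + 1)) - sy ψ α (w (2 * b)) with hc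
  set v : ℝ := ∑ b ∈ range n, ∑ α ∈ A, c b α ^ 2 with hv
  set x : XT := ∑ b ∈ range n, ∑ α ∈ A, c b α • (del α (w (2 * b + 1)) - del α (w (2 * b))) with hx
  have hv0 : 0 ≤ v := sum_nonneg fun _ _ => sum_nonneg fun _ _ => sq_nonneg _
  have h1 : ψ x = v := by
    rw [hx, hv, map_sum]
    refine sum_congr rfl fun b _ => ?_
    rw [map_sum]
    refine sum_congr rfl fun α _ => ?_
    rw [map_smul, map_sub, smul_eq_mul, pow_two]
    rfl
  have h2 : ‖x‖ ≤ Real.sqrt v := by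
    refine norm_le_of_ev (Real.sqrt_nonneg _) fun S => ?_
    have e : ev S x = ∑ b ∈ range n, ∑ α ∈ A,
        c b α * (S.1 α (w (2 * b + 1)) - S.1 α (w (2 * b))) := by
      rw [hx, map_sum]
      refine sum_congr rfl fun b _ => ?_
      rw [map_sum]
      refine sum_congr rfl fun α _ => ?_
      rw [map_smul, map_sub, smul_eq_mul, ev_del, ev_del]
    rw [e]
    refine (cs A n c (fun b α => S.1 α (w (2 * b + 1)) - S.1 α (w (2 * b)))).trans ?_
    have h3 : Real.sqrt (∑ b ∈ range n, ∑ α ∈ A,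
        (S.1 α (w (2 * b + 1)) - S.1 α (w (2 * b))) ^ 2) ≤ 1 := by
      exact Real.sqrt_le_one.2 (S.2.2 A n w hw)
    calc _ ≤ Real.sqrt v * 1 := mul_le_mul_of_nonneg_left h3 (Real.sqrt_nonneg _)
      _ = Real.sqrt v := mul_one _
  have h3 : v ≤ ‖ψ‖ * Real.sqrt v := by
    calc v = ψ x := h1.symm
      _ ≤ ‖ψ x‖ := le_abs_self _
      _ ≤ ‖ψ‖ * ‖x‖ := ψ.le_opNorm x
      _ ≤ ‖ψ‖ * Real.sqrt v := mul_le_mul_of_nonneg_left h2 (norm_nonneg _)
  rcases eq_or_lt_of_le hv0 with h0 | h0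
  · rw [← h0]; positivity
  · have hs : 0 < Real.sqrt v := Real.sqrt_pos.2 h0
    have h4 : Real.sqrt v ≤ ‖ψ‖ := by
      have e : Real.sqrt v * Real.sqrt v = v := Real.mul_self_sqrt hv0
      nlinarith
    calc v = Real.sqrt v ^ 2 := (Real.sq_sqrt hv0).symm
      _ ≤ ‖ψ‖ ^ 2 := by gcongr

end Pool.Agent.K4H42.IC
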