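import Pool.Agent.K4H42.ICA

/-! Step functionals, stopping operators, and the superadditivity of the squared dual norm. -/

namespace Pool.Agent.K4H42.IC

open Finset

theorem tele {h : ℕ → ℝ} (hm : Monotone h) (n : ℕ) :
    ∑ b ∈ range n, (h (2 * b + 1) - h (2 * b)) ≤ h (2 * n) - h 0 := by
  induction n with
  | zero => simp
  | succ n ih =>
    rw [sum_range_succ]
    have h1 : h (2 * n + 1) ≤ h (2 * (n + 1)) := hm (by omega)
    linarith

theorem adm_step (b : ℕ → ℝ) (τ : ℕ → ℕ) (hτ : ∀ β, β < τ β) (v : ℝ)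
    (hb : ∀ A : Finset ℕ, ∑ β ∈ A, b β ^ 2 ≤ v) :
    Adm (fun β s => if τ β ≤ s then b β else 0) v := by
  refine ⟨fun β s hs => ?_, fun A n w hw => ?_⟩
  · have h0 := hτ β
    exact if_neg (by omega)
  · rw [sum_comm]
    refine le_trans (sum_le_sum fun β _ => ?_) (hb A)
    set g : ℕ → ℝ := fun l => if τ β ≤ w l then 1 else 0 with hg
    have hgm : Monotone g := by
      intro i j hij
      simp only [hg]
      have := hw hij
      split_ifs with h1 h2
      · exact le_rfl
      · omega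
      · exact zero_le_one
      · exact le_rfl
    have e : ∀ l, ((if τ β ≤ w (2 * l + 1) then b β else 0) -
        (if τ β ≤ w (2 * l) then b β else 0)) ^ 2 = b β ^ 2 * (g (2 * l + 1) - g (2 * l)) := by
      intro l
      have h0 := hw (show 2 * l ≤ 2 * l + 1 by omega)
      simp only [hg]
      split_ifs with h1 h2
      · ring
      · ring
      · omega
      · ring
    rw [sum_congr rfl fun l _ => e l, ← mul_sum]
    have h1 := tele hgm n
    have h2 : g (2 * n) ≤ 1 := by
      simp only [hg]; split_ifs <;> norm_num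
    have h3 : 0 ≤ g 0 := by
      simp only [hg]; split_ifs <;> norm_num
    have h4 : ∑ i ∈ range n, (g (2 * i + 1) - g (2 * i)) ≤ 1 := by linarith
    calc _ ≤ b β ^ 2 * 1 := mul_le_mul_of_nonneg_left h4 (sq_nonneg _)
      _ = b β ^ 2 := mul_one _

theorem exists_J (α t : ℕ) : ∃ ψ : XD,
    ∀ β s, sy ψ β s = if max t (β + 1) ≤ s then (if β = α then 1 else 0) else 0 := by
  obtain ⟨ψ, h1, -⟩ := exists_mk (adm_step (fun β => if β = α then 1 else 0)
    (fun β => max t (β + 1)) (fun β => by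
      have := le_max_right t (β + 1)
      show β < max t (β + 1)
      omega) 1 (fun A => by
        simp only [ite_pow, one_pow, ne_eq, OfNat.ofNat_ne_zero, not_false_eq_true, zero_pow]
        rw [Finset.sum_ite_eq']
        split_ifs <;> norm_num))
  exact ⟨ψ, h1⟩

/-- The step functional at row `α` and time `t`. -/
noncomputable def J (α t : ℕ) : XD := (exists_J α t).choose

theorem sy_J (α t β s : ℕ) :
    sy (J α t) β s = if max t (β + 1) ≤ s then (if β = α then 1 else 0) else 0 :=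
  (exists_J α t).choose_spec β s

/-- The stopping operator. -/
noncomputable def P (T : ℕ) : XT →L[ℝ] XT :=
  ∑ t ∈ range T, ∑ α ∈ range T, (J α (t + 1)).smulRight (del α (t + 1) - del α t)

theorem P_del (T β s : ℕ) : P T (del β s) = del β (min s T) := by
  have h1 : P T (del β s) = ∑ t ∈ range T, ∑ α ∈ range T,
      (sy (J α (t + 1)) β s) • (del α (t + 1) - del α t) := by
    unfold P
    simp only [_root_.sum_apply, ContinuousLinearMap.smulRight_apply]
    rfl
  rw [h1]
  rcases le_or_gt s β with hs | hs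
  · rw [del_eq_zero (show min s T ≤ β by omega)]
    refine sum_eq_zero fun t _ => sum_eq_zero fun α _ => ?_
    rw [sy_J, if_neg (by have := le_max_right (t + 1) (β + 1); omega), zero_smul]
  · have h2 : ∀ t ∈ range T, ∑ α ∈ range T, (sy (J α (t + 1)) β s) • (del α (t + 1) - del α t) =
        del β (min (t + 1) s) - del β (min t s) := by
      intro t ht
      rw [mem_range] at ht
      have h3 : ∀ α ∈ range T, (sy (J α (t + 1)) β s) • (del α (t + 1) - del α t) =
          if β = α then (if t + 1 ≤ s then (del β (t + 1) - del β t) else 0) else 0 := by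
        intro α _
        rw [sy_J]
        by_cases hβ : β = α
        · subst hβ
          by_cases hts : t + 1 ≤ s
          · rw [if_pos (by omega)]
            simp [hts]
          · rw [if_neg (by omega)]
            simp [hts]
        · simp [hβ]
      rw [sum_congr rfl h3, sum_ite_eq]
      by_cases hβT : β ∈ range T
      · rw [if_pos hβT]
        by_cases hts : t + 1 ≤ s
        · rw [if_pos hts, min_eq_left hts, min_eq_left (by omega)]
        · rw [if_neg hts, min_eq_right (by omega), min_eq_right (by omega), sub_self]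
      · rw [if_neg hβT]
        rw [mem_range, not_lt] at hβT
        rw [del_eq_zero (show min (t + 1) s ≤ β by omega),
          del_eq_zero (show min t s ≤ β by omega), sub_self]
    rw [sum_congr rfl h2, sum_range_sub (fun t => del β (min t s)) T]
    rw [del_eq_zero (show min 0 s ≤ β by omega), sub_zero, min_comm]

theorem sy_comp_P (ψ : XD) (T α t : ℕ) : sy (ψ.comp (P T)) α t = sy ψ α (min t T) := by
  change ψ (P T (del α t)) = _
  rw [P_del]
  rfl

theorem sy_sub (ψ ψ' : XD) (α t : ℕ) : sy (ψ - ψ') α t = sy ψ α t - sy ψ' α t := rfl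
theorem sy_add (ψ ψ' : XD) (α t : ℕ) : sy (ψ + ψ') α t = sy ψ α t + sy ψ' α t := rfl
theorem sy_smul (c : ℝ) (ψ : XD) (α t : ℕ) : sy (c • ψ) α t = c * sy ψ α t := rfl

theorem stop_aux (ψ : XD) (T : ℕ) (A A' : Finset ℕ) (n n' : ℕ) (w w' : ℕ → ℕ)
    (hw : Monotone w) (hw' : Monotone w') :
    (∑ b ∈ range n, ∑ α ∈ A, (sy (ψ.comp (P T)) α (w (2 * b + 1)) -
        sy (ψ.comp (P T)) α (w (2 * b))) ^ 2) +
      (∑ b ∈ range n', ∑ α ∈ A', (sy (ψ - ψ.comp (P T)) α (w' (2 * b + 1)) -
        sy (ψ - ψ.comp (P T)) α (w' (2 * b))) ^ 2) ≤ ‖ψ‖ ^ 2 := by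
  set W : ℕ → ℕ := fun l => if l < 2 * n then min (w l) T else max (w' (l - 2 * n)) T with hW
  have hWm : Monotone W := by
    intro i j hij
    simp only [hW]
    split_ifs with h1 h2
    · exact min_le_min_right _ (hw hij)
    · exact (min_le_right _ _).trans (le_max_right _ _)
    · omega
    · exact max_le_max_right _ (hw' (by omega))
  have h := (adm_sy ψ).2 (A ∪ A') (n + n') W hWm
  rw [sum_range_add] at h
  refine le_trans (add_le_add (sum_le_sum fun b hb => ?_) (sum_le_sum fun b hb => ?_)) h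
  · rw [mem_range] at hb
    have e1 : W (2 * b + 1) = min (w (2 * b + 1)) T := if_pos (by omega)
    have e2 : W (2 * b) = min (w (2 * b)) T := if_pos (by omega)
    rw [e1, e2]
    simp only [sy_comp_P]
    exact sum_le_sum_of_subset_of_nonneg subset_union_left fun _ _ _ => sq_nonneg _
  · have e1 : W (2 * (n + b) + 1) = max (w' (2 * b + 1)) T := by
      simp only [hW]
      rw [if_neg (by omega)]
      congr 2
      omega
    have e2 : W (2 * (n + b)) = max (w' (2 * b)) T := by
      simp only [hW]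
      rw [if_neg (by omega)]
      congr 2
      omega
    rw [e1, e2]
    have e3 : ∀ α s, sy (ψ - ψ.comp (P T)) α s = sy ψ α (max s T) - sy ψ α T := by
      intro α s
      rw [sy_sub, sy_comp_P]
      rcases le_total s T with hs | hs
      · rw [min_eq_left hs, max_eq_right hs]; ring
      · rw [min_eq_right hs, max_eq_left hs]
    simp only [e3]
    have e4 : ∀ α, (sy ψ α (max (w' (2 * b + 1)) T) - sy ψ α T -
        (sy ψ α (max (w' (2 * b)) T) - sy ψ α T)) ^ 2 =
        (sy ψ α (max (w' (2 * b + 1)) T) - sy ψ α (max (w' (2 * b)) T)) ^ 2 := by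
      intro α; ring
    simp only [e4]
    exact sum_le_sum_of_subset_of_nonneg subset_union_right fun _ _ _ => sq_nonneg _

theorem stop_sq (ψ : XD) (T : ℕ) :
    ‖ψ.comp (P T)‖ ^ 2 + ‖ψ - ψ.comp (P T)‖ ^ 2 ≤ ‖ψ‖ ^ 2 := by
  have had : ∀ α t, t ≤ α → sy (ψ.comp (P T)) α t = 0 := (adm_sy _).1
  have had' : ∀ α t, t ≤ α → sy (ψ - ψ.comp (P T)) α t = 0 := (adm_sy _).1
  have h1 : ∀ (A : Finset ℕ) (n : ℕ) (w : ℕ → ℕ), Monotone w →
      ∑ b ∈ range n, ∑ α ∈ A, (sy (ψ.comp (P T)) α (w (2 * b + 1)) -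
        sy (ψ.comp (P T)) α (w (2 * b))) ^ 2 ≤ ‖ψ‖ ^ 2 - ‖ψ - ψ.comp (P T)‖ ^ 2 := by
    intro A n w hw
    have h2 : ‖ψ - ψ.comp (P T)‖ ^ 2 ≤ ‖ψ‖ ^ 2 - ∑ b ∈ range n, ∑ α ∈ A,
        (sy (ψ.comp (P T)) α (w (2 * b + 1)) - sy (ψ.comp (P T)) α (w (2 * b))) ^ 2 := by
      refine norm_sq_le_of_adm ⟨had', fun A' n' w' hw' => ?_⟩
      have := stop_aux ψ T A A' n n' w w' hw hw'
      linarith
    linarith
  have h3 := norm_sq_le_of_adm (ψ := ψ.comp (P T)) ⟨had, h1⟩
  linarith

theorem norm_comp_P_le (ψ : XD) (T : ℕ) : ‖ψ.comp (P T)‖ ≤ ‖ψ‖ := by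
  have h := stop_sq ψ T
  have h1 : ‖ψ.comp (P T)‖ ^ 2 ≤ ‖ψ‖ ^ 2 := by nlinarith [sq_nonneg ‖ψ - ψ.comp (P T)‖]
  exact le_of_sq_le_sq h1 (norm_nonneg _)

theorem norm_P_le (T : ℕ) (x : XT) : ‖P T x‖ ≤ ‖x‖ := by
  refine NormedSpace.norm_le_dual_bound ℝ _ (norm_nonneg _) fun ψ => ?_
  change ‖(ψ.comp (P T)) x‖ ≤ _
  calc _ ≤ ‖ψ.comp (P T)‖ * ‖x‖ := (ψ.comp (P T)).le_opNorm x
    _ ≤ ‖ψ‖ * ‖x‖ := mul_le_mul_of_nonneg_right (norm_comp_P_le ψ T) (norm_nonneg _)
    _ = ‖x‖ * ‖ψ‖ := mul_comm _ _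

theorem P_P (T : ℕ) (x : XT) : P T (P T x) = P T x := by
  have : (P T).comp (P T) = P T := by
    refine clm_ext fun α t => ?_
    change P T (P T (del α t)) = P T (del α t)
    rw [P_del, P_del, min_assoc, min_self]
  exact congrArg (fun f : XT →L[ℝ] XT => f x) this

end Pool.Agent.K4H42.IC
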