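import Pool.Agent.K4H42.ICB
import Pool.Agent.K4H42.ICDef

/-! The space is 2-AUS. -/

namespace Pool.Agent.K4H42.IC

open Finset Filter Topology

/-- Vectors approximated by their stopped versions. -/
theorem P_approx (x : XT) : ∀ ε : ℝ, 0 < ε → ∃ T0 : ℕ, ∀ T, T0 ≤ T → ‖P T x - x‖ < ε := by
  let p : Submodule ℝ XT :=
    { carrier := {x | ∀ ε : ℝ, 0 < ε → ∃ T0 : ℕ, ∀ T, T0 ≤ T → ‖P T x - x‖ < ε}
      add_mem' := by
        intro a b ha hb ε hε
        obtain ⟨T1, h1⟩ := ha (ε / 2) (by linarith)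
        obtain ⟨T2, h2⟩ := hb (ε / 2) (by linarith)
        refine ⟨max T1 T2, fun T hT => ?_⟩
        have e : P T (a + b) - (a + b) = (P T a - a) + (P T b - b) := by
          rw [map_add]; abel
        rw [e]
        have := norm_add_le (P T a - a) (P T b - b)
        have := h1 T (le_trans (le_max_left _ _) hT)
        have := h2 T (le_trans (le_max_right _ _) hT)
        linarith
      zero_mem' := by
        intro ε hε
        refine ⟨0, fun T _ => ?_⟩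
        simpa using hε
      smul_mem' := by
        intro c a ha ε hε
        obtain ⟨T1, h1⟩ := ha (ε / (|c| + 1)) (by positivity)
        refine ⟨T1, fun T hT => ?_⟩
        have e : P T (c • a) - c • a = c • (P T a - a) := by
          rw [map_smul, smul_sub]
        rw [e, norm_smul, Real.norm_eq_abs]
        have h2 := h1 T hT
        have h3 : (0 : ℝ) < |c| + 1 := by positivity
        rw [lt_div_iff₀ h3] at h2
        nlinarith [norm_nonneg (P T a - a), abs_nonneg c] }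
  have hp : IsClosed (p : Set XT) := by
    refine isClosed_of_closure_subset fun y hy => ?_
    intro ε hε
    obtain ⟨z, hz, hyz⟩ := Metric.mem_closure_iff.1 hy (ε / 3) (by linarith)
    obtain ⟨T0, h0⟩ := hz (ε / 3) (by linarith)
    refine ⟨T0, fun T hT => ?_⟩
    have e : P T y - y = P T (y - z) + (P T z - z) + (z - y) := by
      rw [map_sub]; abel
    rw [e]
    have h1 := norm_add₃_le (a := P T (y - z)) (b := P T z - z) (c := z - y)
    have h2 := norm_P_le T (y - z)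
    have h3 := h0 T hT
    rw [dist_eq_norm] at hyz
    have h4 : ‖z - y‖ = ‖y - z‖ := norm_sub_rev _ _
    linarith
  have h : ∀ α t, del α t ∈ p := by
    intro α t ε hε
    refine ⟨t, fun T hT => ?_⟩
    rw [P_del, min_eq_left hT, sub_self, norm_zero]
    exact hε
  exact mem_of_closed p hp h x

theorem split_sq (T : ℕ) {x y : XT} (hx : P T x = x) (hy : P T y = 0) :
    ‖x + y‖ ≤ Real.sqrt (‖x‖ ^ 2 + ‖y‖ ^ 2) := by
  refine NormedSpace.norm_le_dual_bound ℝ _ (Real.sqrt_nonneg _) fun ψ => ?_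
  have h1 : ψ (x + y) = (ψ.comp (P T)) x + (ψ - ψ.comp (P T)) y := by
    change ψ (x + y) = ψ (P T x) + (ψ y - ψ (P T y))
    rw [hx, hy, map_zero, sub_zero, map_add]
  rw [h1]
  set a := ‖ψ.comp (P T)‖
  set b := ‖ψ - ψ.comp (P T)‖
  have h2 : ‖(ψ.comp (P T)) x‖ ≤ a * ‖x‖ := (ψ.comp (P T)).le_opNorm x
  have h3 : ‖(ψ - ψ.comp (P T)) y‖ ≤ b * ‖y‖ := (ψ - ψ.comp (P T)).le_opNorm y
  have h4 : a ^ 2 + b ^ 2 ≤ ‖ψ‖ ^ 2 := stop_sq ψ T
  have h5 := norm_add_le ((ψ.comp (P T)) x) ((ψ - ψ.comp (P T)) y)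
  have h6 : a * ‖x‖ + b * ‖y‖ ≤ Real.sqrt (‖x‖ ^ 2 + ‖y‖ ^ 2) * ‖ψ‖ := by
    have e : Real.sqrt (‖x‖ ^ 2 + ‖y‖ ^ 2) * ‖ψ‖ =
        Real.sqrt ((‖x‖ ^ 2 + ‖y‖ ^ 2) * ‖ψ‖ ^ 2) := by
      rw [Real.sqrt_mul (by positivity), Real.sqrt_sq (norm_nonneg _)]
    rw [e]
    apply Real.le_sqrt_of_sq_le
    have h7 : (a * ‖x‖ + b * ‖y‖) ^ 2 ≤ (‖x‖ ^ 2 + ‖y‖ ^ 2) * (a ^ 2 + b ^ 2) := by
      nlinarith [sq_nonneg (a * ‖y‖ - b * ‖x‖)]
    refine h7.trans ?_
    exact mul_le_mul_of_nonneg_left h4 (by positivity)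
  linarith

theorem finDim_quot (T : ℕ) :
    FiniteDimensional ℝ (XT ⧸ LinearMap.ker (P T).toLinearMap) := by
  let s : Set XT := Set.range fun q : Fin T × Fin T => del q.2 (q.1 + 1) - del q.2 q.1
  have hs : FiniteDimensional ℝ (Submodule.span ℝ s) :=
    FiniteDimensional.span_of_finite ℝ (Set.finite_range _)
  have hle : LinearMap.range (P T).toLinearMap ≤ Submodule.span ℝ s := by
    rintro _ ⟨x, rfl⟩
    have e : (P T).toLinearMap x = ∑ t ∈ range T, ∑ α ∈ range T,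
        (J α (t + 1) x) • (del α (t + 1) - del α t) := by
      change P T x = _
      unfold P
      simp only [_root_.sum_apply, ContinuousLinearMap.smulRight_apply]
    rw [e]
    refine Submodule.sum_mem _ fun t ht => Submodule.sum_mem _ fun α hα => ?_
    refine Submodule.smul_mem _ _ (Submodule.subset_span ?_)
    exact ⟨(⟨t, mem_range.1 ht⟩, ⟨α, mem_range.1 hα⟩), rfl⟩
  have hr : FiniteDimensional ℝ (LinearMap.range (P T).toLinearMap) :=
    Submodule.finiteDimensional_of_le hle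
  exact (LinearMap.quotKerEquivRange (P T).toLinearMap).symm.finiteDimensional

theorem aus_XT : IsAUS 2 XT := by
  refine ⟨1, one_pos, fun t ht0 ht1 => ?_⟩
  rw [one_mul]
  unfold ausModulus
  refine Real.iSup_le (fun x => ?_) (by positivity)
  obtain ⟨T, hT⟩ := P_approx x.1 (t ^ 2 / 4) (by positivity)
  have hT := hT T le_rfl
  set η := t ^ 2 / 4 with hη
  let Y : {Y : Submodule ℝ XT // IsClosed (Y : Set XT) ∧ FiniteDimensional ℝ (XT ⧸ Y)} :=
    ⟨LinearMap.ker (P T).toLinearMap, (P T).isClosed_ker, finDim_quot T⟩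
  refine ciInf_le_of_le ?_ Y ?_
  · refine ⟨0, ?_⟩
    rintro _ ⟨Z, rfl⟩
    refine Real.iSup_nonneg' ⟨⟨0, Z.1.zero_mem, by simpa using ht0.le⟩, ?_⟩
    simp [x.2]
  · refine Real.iSup_le (fun y => ?_) (by positivity)
    have hy : P T y.1 = 0 := y.2.1
    have hyt : ‖y.1‖ ≤ t := y.2.2
    have h1 := split_sq T (P_P T x.1) hy
    have h2 : ‖P T x.1‖ ≤ 1 := (norm_P_le T x.1).trans x.2.le
    have h3 : ‖x.1 + y.1‖ ≤ ‖P T x.1 + y.1‖ + ‖P T x.1 - x.1‖ := by
      have e : x.1 + y.1 = (P T x.1 + y.1) - (P T x.1 - x.1) := by abel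
      calc ‖x.1 + y.1‖ = ‖(P T x.1 + y.1) - (P T x.1 - x.1)‖ := by rw [← e]
        _ ≤ _ := norm_sub_le _ _
    have h4 : Real.sqrt (‖P T x.1‖ ^ 2 + ‖y.1‖ ^ 2) ≤ 1 + t ^ 2 / 2 := by
      apply Real.sqrt_le_iff.2
      refine ⟨by positivity, ?_⟩
      have h5 : ‖P T x.1‖ ^ 2 ≤ 1 := by
        have := pow_le_pow_left₀ (norm_nonneg (P T x.1)) h2 2
        simpa using this
      have h6 : ‖y.1‖ ^ 2 ≤ t ^ 2 := pow_le_pow_left₀ (norm_nonneg _) hyt 2
      nlinarith [sq_nonneg (t ^ 2)]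
    have e2 : t ^ (2 : ℝ) = t ^ (2 : ℕ) := by
      rw [← Real.rpow_natCast]; norm_num
    rw [e2]
    have h7 : ‖P T x.1 + y.1‖ ≤ 1 + t ^ (2 : ℕ) / 2 := h1.trans h4
    have h8 : ‖P T x.1 - x.1‖ < t ^ (2 : ℕ) / 4 := hT
    have h9 : (0 : ℝ) < t ^ (2 : ℕ) := by positivity
    linarith

end Pool.Agent.K4H42.IC
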