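import Pool.Agent.K4H42.ICC

/-! The bidual of the space. -/

namespace Pool.Agent.K4H42.IC

open Finset Filter Topology

section Ulim

variable {E F : Type} [NormedAddCommGroup E] [NormedSpace ℝ E] [NormedAddCommGroup F]
  [NormedSpace ℝ F]

theorem exists_lim (a : ℕ → ℝ) (C : ℝ) (h : ∀ n, |a n| ≤ C) (U : Ultrafilter ℕ) :
    ∃ l : ℝ, Tendsto a U (𝓝 l) := by
  have hK : IsCompact (Set.Icc (-C) C) := isCompact_Icc
  have hm : ((U.map a : Ultrafilter ℝ) : Filter ℝ) ≤ 𝓟 (Set.Icc (-C) C) := by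
    rw [le_principal_iff, Ultrafilter.mem_coe, Ultrafilter.mem_map]
    refine Filter.univ_mem' fun n => ?_
    exact abs_le.1 (h n)
  obtain ⟨l, -, hl⟩ := hK.ultrafilter_le_nhds _ hm
  exact ⟨l, hl⟩

theorem exists_ulim (B : ℕ → E →L[ℝ] F →L[ℝ] ℝ) (hB : ∀ n x y, |B n x y| ≤ ‖x‖ * ‖y‖)
    (U : Ultrafilter ℕ) :
    ∃ L : E →L[ℝ] F →L[ℝ] ℝ, ∀ x y, Tendsto (fun n => B n x y) U (𝓝 (L x y)) := by
  have hex : ∀ x y, ∃ l : ℝ, Tendsto (fun n => B n x y) U (𝓝 l) :=
    fun x y => exists_lim _ _ (fun n => hB n x y) U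
  choose l hl using hex
  have hbd : ∀ x y, ‖l x y‖ ≤ 1 * ‖x‖ * ‖y‖ := by
    intro x y
    rw [one_mul]
    exact le_of_tendsto (hl x y).norm (Filter.univ_mem' fun n => hB n x y)
  let L0 : E →ₗ[ℝ] F →ₗ[ℝ] ℝ := LinearMap.mk₂ ℝ l
    (by
      intro x x' y
      refine tendsto_nhds_unique (hl (x + x') y) ?_
      simpa using (hl x y).add (hl x' y))
    (by
      intro c x y
      refine tendsto_nhds_unique (hl (c • x) y) ?_
      simpa using (hl x y).const_mul c)
    (by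
      intro x y y'
      refine tendsto_nhds_unique (hl x (y + y')) ?_
      simpa using (hl x y).add (hl x y'))
    (by
      intro c x y
      refine tendsto_nhds_unique (hl x (c • y)) ?_
      simpa using (hl x y).const_mul c)
  refine ⟨L0.mkContinuous₂ 1 hbd, fun x y => ?_⟩
  exact hl x y

end Ulim

/-- The Hilbert space. -/
abbrev HS : Type := lp (fun _ : ℕ => ℝ) 2

theorem sum_sq_le (c : HS) (A : Finset ℕ) : ∑ α ∈ A, (c α) ^ 2 ≤ ‖c‖ ^ 2 := by
  have h := lp.sum_rpow_le_norm_rpow (p := 2) (by norm_num) c A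
  simpa using h

/-- Coordinates. -/
noncomputable def co (α : ℕ) : HS →L[ℝ] ℝ := lp.evalCLM ℝ (fun _ : ℕ => ℝ) 2 α

theorem co_apply (α : ℕ) (c : HS) : co α c = c α := rfl

/-- The vectors `D t c`. -/
noncomputable def D (t : ℕ) : HS →L[ℝ] XT := ∑ α ∈ range t, (co α).smulRight (del α t)

theorem D_apply (t : ℕ) (c : HS) : D t c = ∑ α ∈ range t, c α • del α t := by
  unfold D
  simp only [_root_.sum_apply, ContinuousLinearMap.smulRight_apply, co_apply]

theorem psi_D (ψ : XD) (t : ℕ) (c : HS) : ψ (D t c) = ∑ α ∈ range t, c α * sy ψ α t := by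
  rw [D_apply, map_sum]
  refine sum_congr rfl fun α _ => ?_
  rw [map_smul]
  rfl

theorem sum_sq_sy_le (ψ : XD) (A : Finset ℕ) (t : ℕ) : ∑ α ∈ A, (sy ψ α t) ^ 2 ≤ ‖ψ‖ ^ 2 := by
  have h := (adm_sy ψ).single A (Nat.zero_le t)
  have h0 : ∀ α, sy ψ α 0 = 0 := fun α => (adm_sy ψ).1 α 0 (Nat.zero_le α)
  simpa [h0] using h

theorem abs_psi_D_le (ψ : XD) (t : ℕ) (c : HS) : |ψ (D t c)| ≤ ‖c‖ * ‖ψ‖ := by
  rw [psi_D]
  apply abs_le_of_sq_le_sq _ (by positivity)
  calc (∑ α ∈ range t, c α * sy ψ α t) ^ 2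
      ≤ (∑ α ∈ range t, (c α) ^ 2) * ∑ α ∈ range t, (sy ψ α t) ^ 2 := sum_mul_sq_le_sq_mul_sq _ _ _
    _ ≤ ‖c‖ ^ 2 * ‖ψ‖ ^ 2 := by
        refine mul_le_mul (sum_sq_le c _) (sum_sq_sy_le ψ _ t) (sum_nonneg fun _ _ => sq_nonneg _)
          (by positivity)
    _ = (‖c‖ * ‖ψ‖) ^ 2 := by ring

/-- The functionals `U T b`. -/
noncomputable def U (T : ℕ) : HS →L[ℝ] XD := ∑ α ∈ range T, (co α).smulRight (J α T)

theorem sy_U (T : ℕ) (b : HS) (β s : ℕ) :
    sy (U T b) β s = if max T (β + 1) ≤ s then (if β < T then b β else 0) else 0 := by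
  have h1 : sy (U T b) β s = ∑ α ∈ range T, b α * sy (J α T) β s := by
    unfold U sy
    simp only [_root_.sum_apply, ContinuousLinearMap.smulRight_apply, co_apply, _root_.smul_apply,
      smul_eq_mul]
  rw [h1]
  simp only [sy_J]
  split_ifs with h2 h3
  · rw [Finset.sum_eq_single_of_mem β (mem_range.2 h3)]
    · simp
    · intro a _ ha
      simp [Ne.symm ha]
  · refine sum_eq_zero fun α hα => ?_
    rw [mem_range] at hα
    rw [if_neg (by omega), mul_zero]
  · simp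

theorem norm_U_le (T : ℕ) (b : HS) : ‖U T b‖ ≤ ‖b‖ := by
  refine le_of_sq_le_sq ?_ (norm_nonneg _)
  apply norm_sq_le_of_adm
  have h := adm_step (fun β => if β < T then b β else 0) (fun β => max T (β + 1))
    (fun β => by
      have := le_max_right T (β + 1)
      show β < max T (β + 1)
      omega) (‖b‖ ^ 2) (fun A => by
        refine le_trans (sum_le_sum fun β _ => ?_) (sum_sq_le b A)
        split_ifs
        · exact le_rfl
        · simpa using sq_nonneg (b β))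
  have e : sy (U T b) = fun β s => if max T (β + 1) ≤ s then (if β < T then b β else 0) else 0 := by
    funext β s
    exact sy_U T b β s
  rw [e]
  exact h

/-- The bidual. -/
abbrev XDD : Type := StrongDual ℝ XD

/-- The ultrafilter. -/
noncomputable def uf : Ultrafilter ℕ := hyperfilter ℕ

theorem uf_le : (uf : Filter ℕ) ≤ atTop := Nat.hyperfilter_le_atTop

theorem exists_Q : ∃ Q : XDD →L[ℝ] HS →L[ℝ] ℝ, ∀ φ b,
    Tendsto (fun T => φ (U T b)) uf (𝓝 (Q φ b)) := by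
  refine exists_ulim (E := XDD) (F := HS)
    (fun T => (ContinuousLinearMap.compL ℝ HS XD ℝ).flip (U T)) ?_ uf
  intro T φ b
  change ‖φ (U T b)‖ ≤ _
  exact (φ.le_opNorm _).trans (mul_le_mul_of_nonneg_left (norm_U_le T b) (norm_nonneg _))

theorem exists_Ls : ∃ L : HS →L[ℝ] XDD, ∀ c ψ,
    Tendsto (fun t => ψ (D t c)) uf (𝓝 (L c ψ)) := by
  refine exists_ulim (E := HS) (F := XD)
    (fun t => (NormedSpace.inclusionInDoubleDual ℝ XT).comp (D t)) ?_ uf
  intro t c ψ
  exact abs_psi_D_le ψ t c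

/-- The quotient map. -/
noncomputable def Q : XDD →L[ℝ] HS →L[ℝ] ℝ := exists_Q.choose
theorem Q_spec (φ : XDD) (b : HS) : Tendsto (fun T => φ (U T b)) uf (𝓝 (Q φ b)) :=
  exists_Q.choose_spec φ b

/-- The lift. -/
noncomputable def Ls : HS →L[ℝ] XDD := exists_Ls.choose
theorem Ls_spec (c : HS) (ψ : XD) : Tendsto (fun t => ψ (D t c)) uf (𝓝 (Ls c ψ)) :=
  exists_Ls.choose_spec c ψ

theorem Ls_U (c b : HS) (T : ℕ) : Ls c (U T b) = ∑ α ∈ range T, c α * b α := by
  refine tendsto_nhds_unique (Ls_spec c (U T b)) ?_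
  refine Tendsto.congr' ?_ tendsto_const_nhds
  refine Filter.Eventually.filter_mono uf_le ?_
  filter_upwards [eventually_ge_atTop T] with t ht
  rw [psi_D]
  have h1 : ∀ α ∈ range t, c α * sy (U T b) α t = if α < T then c α * b α else 0 := by
    intro α hα
    rw [mem_range] at hα
    rw [sy_U, if_pos (by omega)]
    split_ifs <;> simp
  rw [sum_congr rfl h1, ← sum_filter]
  apply sum_congr _ fun _ _ => rfl
  ext α
  simp only [mem_range, mem_filter]
  omega

theorem Q_Ls (c b : HS) : Q (Ls c) b = inner ℝ c b := by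
  refine tendsto_nhds_unique (Q_spec (Ls c) b) ?_
  simp only [Ls_U]
  have h := (lp.hasSum_inner (𝕜 := ℝ) c b).tendsto_sum_nat
  refine Tendsto.congr ?_ (h.mono_left uf_le)
  intro T
  refine sum_congr rfl fun α _ => ?_
  simp [mul_comm]

theorem Q_incl (x : XT) (b : HS) : Q (NormedSpace.inclusionInDoubleDual ℝ XT x) b = 0 := by
  refine tendsto_nhds_unique (Q_spec _ b) ?_
  rw [Metric.tendsto_nhds]
  intro ε hε
  obtain ⟨T0, hT0⟩ := P_approx x (ε / (‖b‖ + 1)) (by positivity)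
  have hT0 := hT0 T0 le_rfl
  refine Filter.Eventually.filter_mono uf_le ?_
  filter_upwards [eventually_gt_atTop T0] with T hT
  rw [dist_zero_right]
  change ‖(U T b) x‖ < ε
  have h1 : (U T b).comp (P T0) = 0 := by
    refine sy_ext fun α t => ?_
    rw [sy_comp_P, sy_U, if_neg (by omega)]
    rfl
  have h2 : (U T b) (P T0 x) = 0 := congrArg (fun f : XD => f x) h1
  have h3 : (U T b) x = (U T b) (x - P T0 x) := by
    rw [map_sub, h2, sub_zero]
  rw [h3]
  have h4 : ‖(U T b) (x - P T0 x)‖ ≤ ‖b‖ * ‖x - P T0 x‖ :=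
    ((U T b).le_opNorm _).trans (mul_le_mul_of_nonneg_right (norm_U_le T b) (norm_nonneg _))
  rw [norm_sub_rev] at hT0
  rw [lt_div_iff₀ (by positivity)] at hT0
  nlinarith [norm_nonneg (x - P T0 x), norm_nonneg b]

end Pool.Agent.K4H42.IC
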