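import Pool.Agent.K4H42.ICG

/-! The map on tuples: Lipschitz bound and certificate. -/

namespace Pool.Agent.K4H42.IC

open Finset

theorem sum_blocks (L M : ℕ) {V : Type*} [AddCommMonoid V] (G : ℕ → V) :
    ∑ i ∈ range (L * M), G i = ∑ l ∈ range M, ∑ r ∈ range L, G (L * l + r) := by
  induction M with
  | zero => simp
  | succ M ih => rw [Nat.mul_succ, sum_range_add, ih, sum_range_succ]

theorem sum_pairs (n : ℕ) {V : Type*} [AddCommMonoid V] (f : ℕ → V) :
    ∑ l ∈ range (2 * n), f l = ∑ b ∈ range n, (f (2 * b) + f (2 * b + 1)) := by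
  induction n with
  | zero => simp
  | succ n ih =>
    rw [Nat.mul_succ, sum_range_succ _ (2 * n + 1), sum_range_succ _ (2 * n), ih,
      sum_range_succ, add_assoc]

theorem sum_blocks2 (L n : ℕ) {V : Type*} [AddCommMonoid V] (G : ℕ → V) :
    ∑ i ∈ range (L * (2 * n)), G i =
      ∑ r ∈ range L, ∑ b ∈ range n, (G (L * (2 * b) + r) + G (L * (2 * b + 1) + r)) := by
  rw [sum_blocks, sum_pairs, sum_comm]
  refine sum_congr rfl fun b _ => ?_
  rw [sum_add_distrib]

/-- The oscillating coefficients. -/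
noncomputable def hh (m i : ℕ) : ℝ := Real.sin (Real.pi * i / (2 * 4 ^ m))

theorem abs_hh_le (m i : ℕ) : |hh m i| ≤ 1 := Real.abs_sin_le_one _

theorem hh_zero (m : ℕ) : hh m 0 = 0 := by simp [hh]

theorem hh_block (m l r : ℕ) : hh m (2 * 4 ^ m * l + r) = (-1) ^ l * hh m r := by
  unfold hh
  rw [← Real.sin_add_nat_mul_pi]
  congr 1
  have : (4 : ℝ) ^ m ≠ 0 := by positivity
  push_cast
  field_simp
  ring

theorem hh_sq (m l r : ℕ) :
    hh m (4 ^ m * (2 * l) + r) ^ 2 + hh m (4 ^ m * (2 * l + 1) + r) ^ 2 = 1 := by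
  have h4 : (4 : ℝ) ^ m ≠ 0 := by positivity
  have e : hh m (4 ^ m * (2 * l + 1) + r) =
      Real.cos (Real.pi * ((4 ^ m * (2 * l) + r : ℕ) : ℝ) / (2 * 4 ^ m)) := by
    unfold hh
    rw [← Real.sin_add_pi_div_two]
    congr 1
    push_cast
    field_simp
    ring
  rw [e]
  unfold hh
  exact Real.sin_sq_add_cos_sq _

theorem hh_diff (m i j : ℕ) (d : ℝ) (hd : |(i : ℝ) - j| ≤ d) :
    (hh m i - hh m j) ^ 2 ≤ 4 * min 1 (d / 4 ^ m) ^ 2 := by
  have h4 : (0 : ℝ) < 4 ^ m := by positivity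
  have h1 : |hh m i - hh m j| ≤ 2 * min 1 (d / 4 ^ m) := by
    rw [mul_min_of_nonneg _ _ (by norm_num : (0 : ℝ) ≤ 2)]
    refine le_min ?_ ?_
    · have h2 := abs_sub (hh m i) (hh m j)
      have h3 := abs_hh_le m i
      have h5 := abs_hh_le m j
      linarith
    · have h2 := Real.abs_sin_sub_sin_le (Real.pi * i / (2 * 4 ^ m)) (Real.pi * j / (2 * 4 ^ m))
      have e : Real.pi * i / (2 * 4 ^ m) - Real.pi * j / (2 * 4 ^ m) =
          Real.pi / (2 * 4 ^ m) * ((i : ℝ) - j) := by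
        field_simp
      rw [e, abs_mul, abs_of_nonneg (show (0 : ℝ) ≤ Real.pi / (2 * 4 ^ m) by positivity)] at h2
      refine h2.trans ?_
      have h3 : Real.pi / (2 * 4 ^ m) * |(i : ℝ) - j| ≤ Real.pi / (2 * 4 ^ m) * d :=
        mul_le_mul_of_nonneg_left hd (by positivity)
      refine h3.trans ?_
      have hd0 : 0 ≤ d := (abs_nonneg _).trans hd
      have hpi : Real.pi ≤ 4 := Real.pi_le_four
      have e2 : Real.pi / (2 * 4 ^ m) * d = Real.pi / 2 * (d / 4 ^ m) := by
        field_simp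
      rw [e2]
      exact mul_le_mul_of_nonneg_right (by linarith) (by positivity)
  have h0 : (0 : ℝ) ≤ min 1 (d / 4 ^ m) :=
    le_min zero_le_one (div_nonneg ((abs_nonneg _).trans hd) h4.le)
  calc (hh m i - hh m j) ^ 2 = |hh m i - hh m j| ^ 2 := (sq_abs _).symm
    _ ≤ (2 * min 1 (d / 4 ^ m)) ^ 2 := pow_le_pow_left₀ (abs_nonneg _) h1 2
    _ = 4 * min 1 (d / 4 ^ m) ^ 2 := by ring

theorem scale_sum (d : ℝ) (hd : 0 ≤ d) (M : ℕ) :
    ∑ m ∈ range M, (4 : ℝ) ^ m * min 1 (d / 4 ^ m) ^ 2 ≤ 4 * d := by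
  by_cases hd1 : d < 1
  · have h : ∀ m ∈ range M, (4 : ℝ) ^ m * min 1 (d / 4 ^ m) ^ 2 ≤ d ^ 2 * (1 / 4) ^ m := by
      intro m _
      have h4 : (0 : ℝ) < 4 ^ m := by positivity
      have h1 : min 1 (d / 4 ^ m) ^ 2 ≤ (d / 4 ^ m) ^ 2 :=
        pow_le_pow_left₀ (le_min zero_le_one (by positivity)) (min_le_right _ _) 2
      have h2 : (4 : ℝ) ^ m * (d / 4 ^ m) ^ 2 = d ^ 2 * (1 / 4) ^ m := by
        rw [one_div, inv_pow]
        field_simp
      rw [← h2]
      exact mul_le_mul_of_nonneg_left h1 h4.le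
    refine (sum_le_sum h).trans ?_
    rw [← mul_sum]
    have h3 : ∑ i ∈ range M, ((1 : ℝ) / 4) ^ i ≤ 2 := by
      rw [geom_sum_eq (by norm_num)]
      have h4 : (0 : ℝ) ≤ (1 / 4) ^ M := by positivity
      rw [div_le_iff_of_neg (by norm_num)]
      linarith
    have h5 : 0 ≤ ∑ i ∈ range M, ((1 : ℝ) / 4) ^ i := sum_nonneg fun _ _ => by positivity
    nlinarith
  · rw [not_lt] at hd1
    have key : (4 ^ M ≤ 4 * d → ∑ m ∈ range M, (4 : ℝ) ^ m * min 1 (d / 4 ^ m) ^ 2 ≤ 4 ^ M / 3) ∧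
        (d ≤ 4 ^ M → ∑ m ∈ range M, (4 : ℝ) ^ m * min 1 (d / 4 ^ m) ^ 2 ≤
          4 * d - 4 / 3 * (d ^ 2 / 4 ^ M)) := by
      induction M with
      | zero =>
        refine ⟨fun _ => by norm_num, fun h => ?_⟩
        simp only [range_zero, sum_empty, pow_zero, div_one] at *
        nlinarith
      | succ M ih =>
        obtain ⟨ih1, ih2⟩ := ih
        have h4 : (0 : ℝ) < 4 ^ M := by positivity
        have e0 : (4 : ℝ) ^ (M + 1) = 4 ^ M * 4 := pow_succ 4 M
        rw [sum_range_succ]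
        refine ⟨fun h => ?_, fun h => ?_⟩
        · rw [e0] at h ⊢
          have h1 : (4 : ℝ) ^ M ≤ d := by linarith
          have h2 := ih1 (by linarith)
          have h3 : min 1 (d / 4 ^ M) = 1 := min_eq_left (by rw [le_div_iff₀ h4]; linarith)
          rw [h3]
          linarith
        · rcases le_total d (4 ^ M) with h1 | h1
          · have h2 := ih2 h1
            have h3 : min 1 (d / 4 ^ M) = d / 4 ^ M := min_eq_right (by rw [div_le_iff₀ h4]; linarith)
            rw [h3]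
            have e1 : (4 : ℝ) ^ M * (d / 4 ^ M) ^ 2 = d ^ 2 / 4 ^ M := by field_simp
            have e2 : d ^ 2 / 4 ^ (M + 1) = d ^ 2 / 4 ^ M / 4 := by rw [e0]; field_simp
            rw [e1, e2]
            linarith
          · have h2 := ih1 (by linarith)
            have h3 : min 1 (d / 4 ^ M) = 1 := min_eq_left (by rw [le_div_iff₀ h4]; linarith)
            rw [h3]
            have h5 : d ^ 2 / 4 ^ (M + 1) ≤ d := by
              rw [div_le_iff₀ (by positivity)]
              nlinarith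
            linarith
    rcases le_total d (4 ^ M) with h1 | h1
    · refine (key.2 h1).trans ?_
      have : 0 ≤ d ^ 2 / 4 ^ M := by positivity
      linarith
    · refine (key.1 (by linarith)).trans ?_
      linarith

/-- The row vectors. -/
noncomputable def row (s m a : ℕ) (t : ℕ → ℕ) : XT :=
  ∑ i ∈ range (4 ^ s), (hh m i / (2 ^ m * 2 ^ s)) • del a (t i)

theorem pow_split {s m : ℕ} (h : m < s) : 4 ^ s = 2 * 4 ^ m * (2 * 4 ^ (s - 1 - m)) := by
  have e : s = m + 1 + (s - 1 - m) := by omega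
  conv_lhs => rw [e, pow_add, pow_succ]
  ring

theorem norm_row_le {s m : ℕ} (h : m < s) (a : ℕ) (t : ℕ → ℕ) (ht : Monotone t) :
    ‖row s m a t‖ ≤ 1 := by
  refine norm_le_of_ev zero_le_one fun S => ?_
  set n := 4 ^ (s - 1 - m) with hn
  set L := 2 * 4 ^ m with hL
  have e : ev S (row s m a t) = ∑ r ∈ range L, (hh m r / (2 ^ m * 2 ^ s)) *
      ∑ b ∈ range n, (S.1 a (t (L * (2 * b) + r)) - S.1 a (t (L * (2 * b + 1) + r))) := by
    unfold row
    rw [map_sum, pow_split h, sum_blocks2]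
    refine sum_congr rfl fun r _ => ?_
    rw [mul_sum]
    refine sum_congr rfl fun b _ => ?_
    simp only [map_smul, ev_del, smul_eq_mul]
    have p1 : (-1 : ℝ) ^ (2 * b) = 1 := by rw [pow_mul]; norm_num
    have p2 : (-1 : ℝ) ^ (2 * b + 1) = -1 := by rw [pow_succ, p1]; norm_num
    rw [hh_block, hh_block, p1, p2]
    ring
  rw [e]
  have hpow : (0 : ℝ) < 2 ^ m * 2 ^ s := by positivity
  have hb : ∀ r ∈ range L, |(hh m r / (2 ^ m * 2 ^ s)) *
      ∑ b ∈ range n, (S.1 a (t (L * (2 * b) + r)) - S.1 a (t (L * (2 * b + 1) + r)))| ≤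
      1 / (2 ^ m * 2 ^ s) * 2 ^ (s - 1 - m) := by
    intro r _
    rw [abs_mul]
    have h1 : |hh m r / (2 ^ m * 2 ^ s)| ≤ 1 / (2 ^ m * 2 ^ s) := by
      rw [abs_div, abs_of_pos hpow]
      exact div_le_div_of_nonneg_right (abs_hh_le m r) hpow.le
    have h2 : |∑ b ∈ range n, (S.1 a (t (L * (2 * b) + r)) - S.1 a (t (L * (2 * b + 1) + r)))| ≤
        2 ^ (s - 1 - m) := by
      apply abs_le_of_sq_le_sq _ (by positivity)
      have h3 := S.2.2 {a} n (fun l => t (L * l + r)) (fun i j hij => ht (by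
        have := Nat.mul_le_mul_left L hij
        omega))
      simp only [sum_singleton] at h3
      calc (∑ b ∈ range n, (S.1 a (t (L * (2 * b) + r)) - S.1 a (t (L * (2 * b + 1) + r)))) ^ 2
          ≤ (range n).card * ∑ b ∈ range n, (S.1 a (t (L * (2 * b) + r)) -
            S.1 a (t (L * (2 * b + 1) + r))) ^ 2 := sq_sum_le_card_mul_sum_sq
        _ ≤ n * 1 := by
            rw [card_range]
            refine mul_le_mul_of_nonneg_left (le_trans (le_of_eq ?_) h3) (Nat.cast_nonneg _)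
            refine sum_congr rfl fun b _ => ?_
            ring
        _ = (2 ^ (s - 1 - m)) ^ 2 := by
            rw [mul_one, hn]
            push_cast
            rw [← pow_mul, mul_comm, pow_mul]
            norm_num
    exact mul_le_mul h1 h2 (abs_nonneg _) (by positivity)
  refine (abs_sum_le_sum_abs _ _).trans ((sum_le_sum hb).trans ?_)
  rw [sum_const, card_range, nsmul_eq_mul, hL]
  have e2 : (2 : ℝ) ^ s = 2 * 2 ^ m * 2 ^ (s - 1 - m) := by
    have e : s = m + 1 + (s - 1 - m) := by omega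
    conv_lhs => rw [e, pow_add, pow_succ]
    ring
  have e3 : (4 : ℝ) ^ m = 2 ^ m * 2 ^ m := by
    rw [← mul_pow]; norm_num
  push_cast
  rw [e2, e3]
  have : (0 : ℝ) < 2 ^ m := by positivity
  have : (0 : ℝ) < 2 ^ (s - 1 - m) := by positivity
  apply le_of_eq
  field_simp

end Pool.Agent.K4H42.IC
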