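import Pool.Agent.K4H42.ICH

/-! Failure of interlaced concentration. -/

namespace Pool.Agent.K4H42.IC

open Finset

theorem sum_div (K s : ℕ) (hK : 0 < K) (φ : ℕ → ℝ) :
    ∑ p ∈ range (K * s), φ (p / K) = K * ∑ m ∈ range s, φ m := by
  rw [sum_blocks, mul_sum]
  refine sum_congr rfl fun m _ => ?_
  have h : ∀ r ∈ range K, φ ((K * m + r) / K) = φ m := by
    intro r hr
    rw [mem_range] at hr
    rw [Nat.mul_add_div hK, Nat.div_eq_of_lt hr, add_zero]
  rw [sum_congr rfl h, sum_const, card_range, nsmul_eq_mul]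

theorem norm_col_le (Pt : Finset ℕ) (u : ℕ → ℕ) (hu : Set.InjOn u Pt) (c : ℕ → ℝ) (x y : ℕ)
    (C : ℝ) (hC : 0 ≤ C) (hc : ∑ p ∈ Pt, c p ^ 2 ≤ C ^ 2) :
    ‖∑ p ∈ Pt, c p • (del (u p) x - del (u p) y)‖ ≤ C := by
  refine norm_le_of_ev hC fun S => ?_
  have e : ev S (∑ p ∈ Pt, c p • (del (u p) x - del (u p) y)) =
      ∑ p ∈ Pt, c p * (S.1 (u p) x - S.1 (u p) y) := by
    rw [map_sum]
    refine sum_congr rfl fun p _ => ?_
    rw [map_smul, map_sub, ev_del, ev_del, smul_eq_mul]
  rw [e]
  apply abs_le_of_sq_le_sq _ hC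
  have h1 : ∑ p ∈ Pt, (S.1 (u p) x - S.1 (u p) y) ^ 2 ≤ 1 := by
    have h2 : ∑ α ∈ Pt.image u, (S.1 α x - S.1 α y) ^ 2 =
        ∑ p ∈ Pt, (S.1 (u p) x - S.1 (u p) y) ^ 2 := sum_image hu
    rw [← h2]
    rcases le_total x y with h | h
    · refine le_trans (le_of_eq ?_) (S.2.single (Pt.image u) h)
      refine sum_congr rfl fun α _ => ?_
      ring
    · exact S.2.single (Pt.image u) h
  calc (∑ p ∈ Pt, c p * (S.1 (u p) x - S.1 (u p) y)) ^ 2
      ≤ (∑ p ∈ Pt, c p ^ 2) * ∑ p ∈ Pt, (S.1 (u p) x - S.1 (u p) y) ^ 2 :=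
        sum_mul_sq_le_sq_mul_sq _ _ _
    _ ≤ C ^ 2 * 1 := mul_le_mul hc h1 (sum_nonneg fun _ _ => sq_nonneg _) (sq_nonneg _)
    _ = C ^ 2 := mul_one _

/-- The map, on sequences. -/
noncomputable def FF (s : ℕ) (u : ℕ → ℕ) : XT :=
  ∑ p ∈ range (4 ^ s * s), row s (p / 4 ^ s) (u p) (fun i => u (4 ^ s * s + i))

theorem group_lt {s p : ℕ} (hp : p < 4 ^ s * s) : p / 4 ^ s < s :=
  (Nat.div_lt_iff_lt_mul (by positivity)).2 (by rw [mul_comm]; exact hp)

theorem coef_sum (s i : ℕ) (Pt : Finset ℕ) (hPt : Pt ⊆ range (4 ^ s * s)) :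
    ∑ p ∈ Pt, (hh (p / 4 ^ s) i / (2 ^ (p / 4 ^ s) * 2 ^ s)) ^ 2 ≤ 2 ^ 2 := by
  have h1 : ∑ p ∈ Pt, (hh (p / 4 ^ s) i / (2 ^ (p / 4 ^ s) * 2 ^ s)) ^ 2 ≤
      ∑ p ∈ range (4 ^ s * s), (fun m : ℕ => ((1 : ℝ) / 4) ^ m / 4 ^ s) (p / 4 ^ s) := by
    refine (sum_le_sum_of_subset_of_nonneg hPt fun _ _ _ => sq_nonneg _).trans ?_
    refine sum_le_sum fun p _ => ?_
    have h2 : hh (p / 4 ^ s) i ^ 2 ≤ 1 := by
      have := abs_hh_le (p / 4 ^ s) i
      exact (sq_le_one_iff_abs_le_one _).2 this
    have e : (2 ^ (p / 4 ^ s) * 2 ^ s : ℝ) ^ 2 = 4 ^ (p / 4 ^ s) * 4 ^ s := by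
      rw [mul_pow, ← pow_mul, ← pow_mul, mul_comm (p / 4 ^ s) 2, mul_comm s 2, pow_mul, pow_mul]
      norm_num
    rw [div_pow, e]
    have e2 : ((1 : ℝ) / 4) ^ (p / 4 ^ s) / 4 ^ s = 1 / (4 ^ (p / 4 ^ s) * 4 ^ s) := by
      rw [one_div, inv_pow]
      field_simp
    simp only [e2]
    exact div_le_div_of_nonneg_right h2 (by positivity)
  refine h1.trans ?_
  rw [sum_div (4 ^ s) s (by positivity) (fun m : ℕ => ((1 : ℝ) / 4) ^ m / 4 ^ s),
    ← Finset.sum_div]
  have h3 : ∑ i ∈ range s, ((1 : ℝ) / 4) ^ i ≤ 2 := by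
    rw [geom_sum_eq (by norm_num)]
    have h4 : (0 : ℝ) ≤ (1 / 4) ^ s := by positivity
    rw [div_le_iff_of_neg (by norm_num)]
    linarith
  push_cast
  rw [mul_div_cancel₀ _ (by positivity)]
  linarith

theorem lip_FF (s : ℕ) (u u' : ℕ → ℕ) (hu : Monotone u) (hu' : Monotone u')
    (hinj : Set.InjOn u (range (4 ^ s * s))) :
    ‖FF s u - FF s u'‖ ≤ 2 * ∑ p ∈ range (4 ^ s * s + 4 ^ s), if u p ≠ u' p then (1 : ℝ) else 0 := by
  set K := 4 ^ s with hK
  set t : ℕ → ℕ := fun i => u (K * s + i) with ht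
  set t' : ℕ → ℕ := fun i => u' (K * s + i) with ht'
  have htm : Monotone t := fun i j hij => hu (by omega)
  have htm' : Monotone t' := fun i j hij => hu' (by omega)
  set cf : ℕ → ℕ → ℝ := fun p i => hh (p / K) i / (2 ^ (p / K) * 2 ^ s) with hcf
  have h1 : FF s u - FF s u' =
      (∑ p ∈ range (K * s), if u p ≠ u' p then
        row s (p / K) (u p) t - row s (p / K) (u' p) t' else 0) +
      ∑ i ∈ range K, ∑ p ∈ (range (K * s)).filter (fun p => u p = u' p),
        cf p i • (del (u p) (t i) - del (u p) (t' i)) := by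
    rw [sum_comm, sum_filter, ← sum_add_distrib]
    unfold FF
    rw [← sum_sub_distrib]
    refine sum_congr rfl fun p _ => ?_
    by_cases hp : u p = u' p
    · rw [if_neg (by simpa using hp), if_pos hp, zero_add, ← hp]
      unfold row
      rw [← sum_sub_distrib]
      refine sum_congr rfl fun i _ => ?_
      rw [← smul_sub]
    · rw [if_pos hp, if_neg hp, add_zero]
  rw [h1]
  refine (norm_add_le _ _).trans ?_
  rw [sum_range_add, mul_add]
  refine add_le_add ?_ ?_
  · rw [mul_sum]
    refine (norm_sum_le _ _).trans (sum_le_sum fun p hp => ?_)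
    have hpg := group_lt (mem_range.1 hp)
    by_cases h : u p = u' p
    · simp [h]
    · rw [if_pos h, if_pos h, mul_one]
      refine (norm_sub_le _ _).trans ?_
      have h2 := norm_row_le hpg (u p) t htm
      have h3 := norm_row_le hpg (u' p) t' htm'
      linarith
  · rw [mul_sum]
    refine (norm_sum_le _ _).trans (sum_le_sum fun i _ => ?_)
    by_cases h : u (K * s + i) = u' (K * s + i)
    · rw [if_neg (by simpa using h), mul_zero]
      refine le_of_eq ?_
      rw [norm_eq_zero]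
      refine sum_eq_zero fun p _ => ?_
      have : t i = t' i := h
      rw [this, sub_self, smul_zero]
    · rw [if_pos h, mul_one]
      refine norm_col_le _ u (hinj.mono ?_) _ _ _ 2 (by norm_num) ?_
      · exact_mod_cast filter_subset _ _
      · exact coef_sum s i _ (filter_subset _ _)

/-- The counting function. -/
def cnt (s : ℕ) (u : ℕ → ℕ) (t : ℕ) : ℕ :=
  ((range (4 ^ s)).filter fun i => u (4 ^ s * s + i) < t).card

theorem cnt_mono (s : ℕ) (u : ℕ → ℕ) : Monotone (cnt s u) := by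
  intro t t' h
  refine card_le_card fun i hi => ?_
  simp only [mem_filter] at hi ⊢
  exact ⟨hi.1, lt_of_lt_of_le hi.2 h⟩

theorem cnt_le (s : ℕ) (u : ℕ → ℕ) (t : ℕ) : cnt s u t ≤ 4 ^ s := by
  refine (card_le_card (filter_subset _ _)).trans ?_
  rw [card_range]

theorem sum_sq_hh {s m : ℕ} (h : m < s) : ∑ i ∈ range (4 ^ s), hh m i ^ 2 = 4 ^ s / 2 := by
  have e : 4 ^ s = 4 ^ m * (2 * (2 * 4 ^ (s - 1 - m))) := by
    rw [pow_split h]; ring
  have e' : (4 : ℝ) ^ s = 4 ^ m * (2 * (2 * 4 ^ (s - 1 - m))) := by exact_mod_cast e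
  rw [e, sum_blocks2]
  have h1 : ∀ r ∈ range (4 ^ m), ∑ b ∈ range (2 * 4 ^ (s - 1 - m)),
      (hh m (4 ^ m * (2 * b) + r) ^ 2 + hh m (4 ^ m * (2 * b + 1) + r) ^ 2) =
      (2 * 4 ^ (s - 1 - m) : ℝ) := by
    intro r _
    simp only [hh_sq]
    rw [sum_const, card_range, nsmul_eq_mul, mul_one]
    push_cast
    ring
  rw [sum_congr rfl h1, sum_const, card_range, nsmul_eq_mul, e']
  push_cast
  ring

theorem sq_ite_sum (N : ℕ) (u : ℕ → ℕ) (hu : Set.InjOn u (range N)) (v : ℕ → ℝ) (α : ℕ) :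
    (∑ p ∈ range N, if α = u p then v p else 0) ^ 2 =
      ∑ p ∈ range N, if α = u p then v p ^ 2 else 0 := by
  by_cases h : ∃ p ∈ range N, α = u p
  · obtain ⟨p0, hp0, rfl⟩ := h
    have h1 : ∀ w : ℕ → ℝ, ∑ p ∈ range N, (if u p0 = u p then w p else 0) = w p0 := by
      intro w
      rw [sum_eq_single_of_mem p0 hp0, if_pos rfl]
      intro p hp hne
      rw [if_neg]
      intro he
      exact hne (hu hp hp0 he.symm)
    rw [h1, h1]
  · push Not at h
    rw [sum_eq_zero fun p hp => if_neg (h p hp), sum_eq_zero fun p hp => if_neg (h p hp)]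
    norm_num

theorem cert (s : ℕ) (u : ℕ → ℕ)
    (hst : ∀ p q, p < q → q < 4 ^ s * s + 4 ^ s → u p < u q) :
    ∃ ψ : XD, ‖ψ‖ ≤ 1 ∧ ψ (FF s u) = s * 2 ^ s / 8 ∧
      ∀ α, (∀ p, p < 4 ^ s * s → α ≠ u p) → ∀ t, sy ψ α t = 0 := by
  set K := 4 ^ s with hK
  have hK0 : 0 < K := by positivity
  have hinj : Set.InjOn u (range (K * s)) := by
    intro p hp q hq he
    simp only [coe_range, Set.mem_Iio] at hp hq
    by_contra hne
    rcases lt_or_gt_of_ne hne with h | h
    · have := hst p q h (by omega)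
      omega
    · have := hst q p h (by omega)
      omega
  set Bc : ℕ → ℝ := fun m => 2 ^ m / (4 * 4 ^ s) with hBc
  set Sg : ℕ → ℕ → ℝ := fun α t => ∑ p ∈ range (K * s),
    if α = u p then Bc (p / K) * hh (p / K) (cnt s u t) else 0 with hSg
  have hcr : (0 : ℝ) < 4 ^ s := by positivity
  have hadm : Adm Sg 1 := by
    refine ⟨fun α t ht => ?_, fun A n w hw => ?_⟩
    · refine sum_eq_zero fun p hp => ?_
      split_ifs with h
      · have hc : cnt s u t = 0 := by
          unfold cnt
          rw [card_eq_zero, filter_eq_empty_iff]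
          intro i hi
          rw [mem_range] at hi hp
          have := hst p (K * s + i) (by omega) (by omega)
          change ¬ (u (K * s + i) < t)
          omega
        rw [hc, hh_zero, mul_zero]
      · rfl
    · have hstep : ∀ b ∈ range n, ∑ α ∈ A, (Sg α (w (2 * b + 1)) - Sg α (w (2 * b))) ^ 2 ≤
          ((cnt s u (w (2 * b + 1)) : ℝ) - cnt s u (w (2 * b))) / 4 ^ s := by
        intro b _
        set x := cnt s u (w (2 * b + 1)) with hx
        set y := cnt s u (w (2 * b)) with hy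
        have hxy : (y : ℝ) ≤ x := by
          exact_mod_cast cnt_mono s u (hw (by omega))
        set v : ℕ → ℝ := fun p => Bc (p / K) * (hh (p / K) x - hh (p / K) y) with hv
        have h1 : ∀ α ∈ A, (Sg α (w (2 * b + 1)) - Sg α (w (2 * b))) ^ 2 =
            ∑ p ∈ range (K * s), if α = u p then v p ^ 2 else 0 := by
          intro α _
          rw [← sq_ite_sum _ _ hinj]
          congr 1
          simp only [hSg]
          rw [← sum_sub_distrib]
          refine sum_congr rfl fun p _ => ?_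
          split_ifs
          · simp only [hv]; ring
          · ring
        rw [sum_congr rfl h1, sum_comm]
        have h2 : ∀ p ∈ range (K * s), (∑ α ∈ A, if α = u p then v p ^ 2 else 0) ≤
            (fun m : ℕ => Bc m ^ 2 * (hh m x - hh m y) ^ 2) (p / K) := by
          intro p _
          rw [sum_ite_eq']
          split_ifs
          · simp only [hv]; rw [mul_pow]
          · positivity
        refine (sum_le_sum h2).trans ?_
        rw [sum_div K s hK0 (fun m : ℕ => Bc m ^ 2 * (hh m x - hh m y) ^ 2)]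
        have h3 : ∀ m ∈ range s, Bc m ^ 2 * (hh m x - hh m y) ^ 2 ≤
            1 / (4 * 4 ^ s * 4 ^ s) * (4 ^ m * min 1 (((x : ℝ) - y) / 4 ^ m) ^ 2) := by
          intro m _
          have h4 := hh_diff m x y ((x : ℝ) - y) (by rw [abs_of_nonneg (by linarith)])
          have h5 : Bc m ^ 2 = 4 ^ m / (16 * 4 ^ s * 4 ^ s) := by
            simp only [hBc]
            rw [div_pow, ← pow_mul, mul_comm m 2, pow_mul]
            norm_num
            ring
          calc Bc m ^ 2 * (hh m x - hh m y) ^ 2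
              ≤ Bc m ^ 2 * (4 * min 1 (((x : ℝ) - y) / 4 ^ m) ^ 2) :=
                mul_le_mul_of_nonneg_left h4 (sq_nonneg _)
            _ = _ := by
                rw [h5]
                field_simp
                ring
        have h6 := sum_le_sum h3
        rw [← mul_sum] at h6
        have h7 := scale_sum ((x : ℝ) - y) (by linarith) s
        have h8 : ∑ m ∈ range s, Bc m ^ 2 * (hh m x - hh m y) ^ 2 ≤
            1 / (4 * 4 ^ s * 4 ^ s) * (4 * ((x : ℝ) - y)) :=
          h6.trans (mul_le_mul_of_nonneg_left h7 (by positivity))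
        have hKr : (K : ℝ) = 4 ^ s := by rw [hK]; push_cast; rfl
        calc (K : ℝ) * ∑ m ∈ range s, Bc m ^ 2 * (hh m x - hh m y) ^ 2
            ≤ K * (1 / (4 * 4 ^ s * 4 ^ s) * (4 * ((x : ℝ) - y))) :=
              mul_le_mul_of_nonneg_left h8 (Nat.cast_nonneg _)
          _ = ((x : ℝ) - y) / 4 ^ s := by
              rw [hKr]
              field_simp
      refine (sum_le_sum hstep).trans ?_
      rw [← Finset.sum_div]
      rw [div_le_one hcr]
      have hm : Monotone fun l => (cnt s u (w l) : ℝ) := by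
        intro i j hij
        have h0 := cnt_mono s u (hw hij)
        show (cnt s u (w i) : ℝ) ≤ (cnt s u (w j) : ℝ)
        exact_mod_cast h0
      have h1 := tele hm n
      have h2 : (cnt s u (w (2 * n)) : ℝ) ≤ 4 ^ s := by
        exact_mod_cast cnt_le s u (w (2 * n))
      have h3 : (0 : ℝ) ≤ cnt s u (w 0) := Nat.cast_nonneg _
      linarith
  obtain ⟨ψ, hψ1, hψ2⟩ := exists_mk hadm
  refine ⟨ψ, by simpa using hψ2, ?_, ?_⟩
  · have hcnt : ∀ i, i < K → cnt s u (u (K * s + i)) = i := by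
      intro i hi
      unfold cnt
      have : (range (4 ^ s)).filter (fun j => u (4 ^ s * s + j) < u (K * s + i)) = range i := by
        ext j
        simp only [mem_filter, mem_range]
        constructor
        · rintro ⟨hj, hlt⟩
          by_contra hc
          rw [not_lt] at hc
          rcases eq_or_lt_of_le hc with h | h
          · rw [h] at hlt
            exact lt_irrefl _ hlt
          · have := hst (K * s + i) (K * s + j) (by omega) (by omega)
            change u (K * s + j) < u (K * s + i) at hlt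
            omega
        · intro hj
          exact ⟨by omega, hst (K * s + j) (K * s + i) (by omega) (by omega)⟩
      rw [this, card_range]
    have hval : ∀ p ∈ range (K * s), ψ (row s (p / K) (u p) (fun i => u (K * s + i))) =
        1 / (8 * 2 ^ s) := by
      intro p hp
      have hg := group_lt (mem_range.1 hp)
      unfold row
      rw [map_sum]
      have h1 : ∀ i ∈ range (4 ^ s), ψ ((hh (p / K) i / (2 ^ (p / K) * 2 ^ s)) •
          del (u p) (u (K * s + i))) =
          1 / (2 ^ (p / K) * 2 ^ s) * Bc (p / K) * hh (p / K) i ^ 2 := by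
        intro i hi
        rw [map_smul, smul_eq_mul]
        have h2 : ψ (del (u p) (u (K * s + i))) = Bc (p / K) * hh (p / K) i := by
          change sy ψ (u p) (u (K * s + i)) = _
          rw [hψ1]
          simp only [hSg]
          rw [sum_eq_single_of_mem p hp, if_pos rfl, hcnt i (mem_range.1 hi)]
          intro q hq hne
          rw [if_neg]
          intro he
          exact hne (hinj hq hp he.symm)
        rw [h2]
        ring
      rw [sum_congr rfl h1, ← mul_sum, sum_sq_hh hg]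
      simp only [hBc]
      field_simp
      norm_num
    unfold FF
    rw [map_sum, sum_congr rfl hval, sum_const, card_range, nsmul_eq_mul]
    have e3 : (4 : ℝ) ^ s = 2 ^ s * 2 ^ s := by
      rw [← mul_pow]; norm_num
    rw [hK]
    push_cast
    rw [e3]
    field_simp
  · intro α hα t
    rw [hψ1]
    refine sum_eq_zero fun p hp => if_neg (hα p (mem_range.1 hp))

end Pool.Agent.K4H42.IC
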