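import Pool.Agent.K4H42.ICI

/-! Failure of interlaced concentration: the final step. -/

namespace Pool.Agent.K4H42.IC

open Finset

/-- Extension of a tuple to a sequence. -/
def ext {k : ℕ} (hk : 0 < k) (n : Fin k ↪o ℕ) (p : ℕ) : ℕ := n ⟨min p (k - 1), by omega⟩

theorem ext_mono {k : ℕ} (hk : 0 < k) (n : Fin k ↪o ℕ) : Monotone (ext hk n) := by
  intro i j hij
  refine n.monotone ?_
  rw [Fin.mk_le_mk]
  omega

theorem ext_lt {k : ℕ} (hk : 0 < k) (n : Fin k ↪o ℕ) (p q : ℕ) (hpq : p < q) (hq : q < k) :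
    ext hk n p < ext hk n q := by
  refine n.strictMono ?_
  rw [Fin.mk_lt_mk]
  omega

theorem ext_fin {k : ℕ} (hk : 0 < k) (n : Fin k ↪o ℕ) (i : Fin k) : ext hk n i = n i := by
  unfold ext
  congr 1
  ext
  have := i.2
  simp only
  omega

theorem hamming_eq {k : ℕ} (hk : 0 < k) (n m : Fin k ↪o ℕ) :
    ∑ p ∈ range k, (if ext hk n p ≠ ext hk m p then (1 : ℝ) else 0) = hamming n m := by
  rw [← Fin.sum_univ_eq_sum_range (fun p => if ext hk n p ≠ ext hk m p then (1 : ℝ) else 0) k]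
  unfold hamming
  rw [card_filter]
  push_cast
  refine sum_congr rfl fun i _ => ?_
  rw [ext_fin, ext_fin]

theorem not_conc : ¬ InterlacedConcentration 2 XT := by
  rintro ⟨C, hC, h⟩
  obtain ⟨s, hs⟩ := exists_nat_ge ((16 * C + 10) ^ 2)
  set k := 4 ^ s * s + 4 ^ s with hk
  have hk0 : 0 < k := by
    have : 0 < 4 ^ s := by positivity
    omega
  have hlek : 4 ^ s * s ≤ k := Nat.le_add_right _ _
  let f : (Fin k ↪o ℕ) → XT := fun n => FF s (ext hk0 n)
  have h2mem : (2 : ℝ) ∈ lipBounds f := by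
    refine ⟨by norm_num, fun n m => ?_⟩
    rw [← hamming_eq hk0]
    refine lip_FF s _ _ (ext_mono hk0 n) (ext_mono hk0 m) ?_
    intro p hp q hq he
    simp only [coe_range, Set.mem_Iio] at hp hq
    by_contra hne
    rcases lt_or_gt_of_ne hne with h1 | h1
    · have := ext_lt hk0 n p q h1 (lt_of_lt_of_le hq hlek)
      omega
    · have := ext_lt hk0 n q p h1 (lt_of_lt_of_le hp hlek)
      omega
  have hlip : lipConst f ≤ 2 := csInf_le ⟨0, fun L hL => hL.1⟩ h2mem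
  obtain ⟨M, hM, hb⟩ := h k f ⟨2, h2mem⟩ 1 one_pos
  have hsm : StrictMono (Nat.nth (· ∈ M)) := Nat.nth_strictMono hM
  let n : Fin k ↪o ℕ := OrderEmbedding.ofStrictMono (fun i => Nat.nth (· ∈ M) (2 * i))
    (fun i j hij => hsm (by
      have : (i : ℕ) < j := hij
      omega))
  let m : Fin k ↪o ℕ := OrderEmbedding.ofStrictMono (fun i => Nat.nth (· ∈ M) (2 * i + 1))
    (fun i j hij => hsm (by
      have : (i : ℕ) < j := hij
      omega))
  have hn : ∀ i, n i = Nat.nth (· ∈ M) (2 * i) := fun _ => rfl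
  have hm : ∀ i, m i = Nat.nth (· ∈ M) (2 * i + 1) := fun _ => rfl
  have hmain := hb n m (fun i => Nat.nth_mem_of_infinite hM _)
    (fun i => Nat.nth_mem_of_infinite hM _) (by
      refine ⟨fun i => ?_, fun i j hij => ?_⟩
      · rw [hn, hm]; exact hsm (by omega)
      · rw [hn, hm]
        have : (i : ℕ) < j := hij
        exact hsm (by omega))
  obtain ⟨ψ, hψ1, hψ2, hψ3⟩ := cert s (ext hk0 n) (fun p q hpq hq => ext_lt hk0 n p q hpq hq)
  have hzero : ψ (f m) = 0 := by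
    change ψ (FF s (ext hk0 m)) = 0
    unfold FF
    rw [map_sum]
    refine sum_eq_zero fun p hp => ?_
    unfold row
    rw [map_sum]
    refine sum_eq_zero fun i _ => ?_
    rw [map_smul]
    have h1 : ψ (del (ext hk0 m p) (ext hk0 m (4 ^ s * s + i))) = 0 := by
      refine hψ3 _ (fun q hq => ?_) _
      rw [mem_range] at hp
      have hpk : p < k := lt_of_lt_of_le hp hlek
      have hqk : q < k := lt_of_lt_of_le hq hlek
      have e1 : ext hk0 m p = m ⟨p, hpk⟩ := ext_fin hk0 m ⟨p, hpk⟩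
      have e2 : ext hk0 n q = n ⟨q, hqk⟩ := ext_fin hk0 n ⟨q, hqk⟩
      rw [e1, e2, hm, hn]
      intro he
      have := hsm.injective he
      simp only at this
      omega
    change _ * ψ (del (ext hk0 m p) (ext hk0 m (4 ^ s * s + i))) = 0
    rw [h1, mul_zero]
  have hlow : (s : ℝ) * 2 ^ s / 8 ≤ ‖f n - f m‖ := by
    have h1 : ψ (f n - f m) = s * 2 ^ s / 8 := by
      rw [map_sub, hzero, sub_zero]
      exact hψ2
    rw [← h1]
    calc ψ (f n - f m) ≤ ‖ψ (f n - f m)‖ := le_abs_self _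
      _ ≤ ‖ψ‖ * ‖f n - f m‖ := ψ.le_opNorm _
      _ ≤ 1 * ‖f n - f m‖ := mul_le_mul_of_nonneg_right hψ1 (norm_nonneg _)
      _ = ‖f n - f m‖ := one_mul _
  set r := Real.sqrt ((s : ℝ) + 1) with hr
  have hr2 : r ^ 2 = s + 1 := Real.sq_sqrt (by positivity)
  have hr0 : 0 ≤ r := Real.sqrt_nonneg _
  have hkr : (k : ℝ) ^ (1 / (2 : ℝ)) = 2 ^ s * r := by
    rw [← Real.sqrt_eq_rpow, hk]
    push_cast
    have e3 : (4 : ℝ) ^ s * s + 4 ^ s = (2 ^ s) ^ 2 * (s + 1) := by
      rw [← pow_mul, mul_comm s 2, pow_mul]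
      norm_num
      ring
    rw [e3, Real.sqrt_mul (by positivity), Real.sqrt_sq (by positivity)]
  rw [hkr] at hmain
  have h1 : (s : ℝ) * 2 ^ s / 8 ≤ C * 2 * (2 ^ s * r) + 1 := by
    refine hlow.trans (hmain.trans ?_)
    have h2 : C * lipConst f * (2 ^ s * r) ≤ C * 2 * (2 ^ s * r) :=
      mul_le_mul_of_nonneg_right (mul_le_mul_of_nonneg_left hlip hC.le) (by positivity)
    linarith
  have h2s : (1 : ℝ) ≤ 2 ^ s := one_le_pow₀ (by norm_num)
  have h3 : (s : ℝ) / 8 ≤ C * 2 * r + 1 := by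
    have h4 : (s : ℝ) / 8 * 2 ^ s ≤ (C * 2 * r + 1) * 2 ^ s := by
      have e : (C * 2 * r + 1) * 2 ^ s = C * 2 * (2 ^ s * r) + 2 ^ s := by ring
      rw [e]
      have e' : (s : ℝ) / 8 * 2 ^ s = (s : ℝ) * 2 ^ s / 8 := by ring
      rw [e']
      linarith
    exact le_of_mul_le_mul_right h4 (by positivity)
  have h5 : 16 * C + 10 ≤ r := by
    apply Real.le_sqrt_of_sq_le
    linarith
  nlinarith

end Pool.Agent.K4H42.IC
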