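import Pool.Agent.K4H59.TL.Spec

open Set

namespace Pool.Agent.K4H59.TL

open Pool.Agent.K4H72.Til (IsPolygon ShareEdge IsTiling Tile Derivable Adj HasLocEig)

variable {K : Set ℂ} {O : ℂ} {H : Finset (ℂ →L[ℝ] ℝ)} {f₀ h h' : ℂ →L[ℝ] ℝ} {j j' : ℕ}

/-- PIECE G5 -/
theorem pc_sub (hR : Rep K O H) : pc H f₀ O h j ⊆ K := by
  rintro x ⟨-, h1, -, h2⟩
  rw [hR.eq]
  intro h' hh'
  exact (h1 h' hh').trans (h2.trans (pow_le_one₀ (by norm_num) (by norm_num)))

/-- PIECE G5.  all h' (x - O) ≤ 1/2 < 1 -/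
theorem pc_inner (hR : Rep K O H) (hj : 1 ≤ j) : pc H f₀ O h j ⊆ interior K := by
  rintro x ⟨-, h1, -, h2⟩
  have hsub : {x : ℂ | ∀ h ∈ H, h (x - O) < 1} ⊆ K := by
    intro x hx
    rw [hR.eq]
    exact fun h' hh' => (hx h' hh').le
  have hopen : IsOpen {x : ℂ | ∀ h ∈ H, h (x - O) < 1} := by
    have : {x : ℂ | ∀ h ∈ H, h (x - O) < 1} = ⋂ h ∈ H, {x : ℂ | h (x - O) < 1} := by
      ext x; simp
    rw [this]
    refine isOpen_biInter_finset fun h' _ => ?_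
    exact isOpen_lt (h'.continuous.comp (continuous_id.sub continuous_const)) continuous_const
  refine interior_maximal hsub hopen ?_
  intro h' hh'
  have h3 : ((1 : ℝ) / 2) ^ j ≤ (1 / 2) ^ 1 := pow_le_pow_of_le_one (by norm_num) (by norm_num) hj
  have := h1 h' hh'
  norm_num at h3
  linarith

/-- PIECE G6.  e = {x | f₀ (x-O) ≤ 0, h maximal, h (x-O) = (1/2)^(j+1)}; two points: from the interior of the cone -/
theorem pc_share_next (hR : Rep K O H) (hf : f₀ ≠ 0) (hA : Act H f₀ h) (j : ℕ) :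
    Share (pc H f₀ O h j) (pc H f₀ O h (j + 1)) := by
  obtain ⟨c, hc⟩ : ∃ c : ℝ, c = (1 / 2 : ℝ) ^ (j + 1) := ⟨_, rfl⟩
  have hc0 : 0 < c := by rw [hc]; positivity
  have hc1 : c ≤ (1 / 2 : ℝ) ^ j := by
    rw [hc]; exact pow_le_pow_of_le_one (by norm_num) (by norm_num) (Nat.le_succ j)
  have hc2 : (1 / 2 : ℝ) ^ (j + 1 + 1) ≤ c := by
    rw [hc]; exact pow_le_pow_of_le_one (by norm_num) (by norm_num) (Nat.le_succ _)
  obtain ⟨S, hS⟩ : ∃ S : Set ℂ, S = {y : ℂ | f₀ y ≤ 0 ∧ ∀ h' ∈ H, h' y ≤ h y} := ⟨_, rfl⟩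
  have hpos : ∀ y ∈ S, y ≠ 0 → 0 < h y := by
    intro y hy hy0
    rw [hS] at hy
    obtain ⟨h', hh', hp⟩ := hR.pos y hy0
    exact lt_of_lt_of_le hp (hy.2 h' hh')
  have hSne : (interior S).Nonempty := by rw [hS]; exact hA.2
  -- a nonzero interior point
  obtain ⟨y, hy, hy0⟩ : ∃ y ∈ interior S, y ≠ 0 := by
    obtain ⟨y0, hy0⟩ := hSne
    by_cases h0 : y0 = 0
    · obtain ⟨ε, hε, hb⟩ := Metric.isOpen_iff.1 isOpen_interior y0 hy0
      refine ⟨((ε / 2 : ℝ) : ℂ), hb ?_, ?_⟩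
      · rw [h0, Metric.mem_ball, dist_zero_right, Complex.norm_real, Real.norm_eq_abs, abs_of_pos (by positivity)]
        linarith
      · rw [Ne, Complex.ofReal_eq_zero]; positivity
    · exact ⟨y0, hy0, h0⟩
  obtain ⟨ε, hε, hb⟩ := Metric.isOpen_iff.1 isOpen_interior y hy
  have hny : 0 < ‖y‖ := norm_pos_iff.2 hy0
  obtain ⟨δ, hδ⟩ : ∃ δ : ℝ, δ = ε / (2 * ‖y‖) := ⟨_, rfl⟩
  have hδ0 : 0 < δ := by rw [hδ]; positivity
  obtain ⟨y1, hy1⟩ : ∃ y1 : ℂ, y1 = y + (δ : ℂ) * (Complex.I * y) := ⟨_, rfl⟩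
  have hy1S : y1 ∈ S := by
    refine interior_subset (hb ?_)
    rw [Metric.mem_ball, dist_eq_norm, hy1, add_sub_cancel_left, norm_mul, norm_mul, Complex.norm_I,
      Complex.norm_real, Real.norm_eq_abs, abs_of_pos hδ0, one_mul, hδ]
    have : ε / (2 * ‖y‖) * ‖y‖ = ε / 2 := by field_simp
    rw [this]; linarith
  have hyS : y ∈ S := interior_subset hy
  have hy1' : y1 = (1 + (δ : ℂ) * Complex.I) * y := by rw [hy1]; ring
  have h1δ : (1 + (δ : ℂ) * Complex.I) ≠ 0 := by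
    intro h0
    have := congrArg Complex.re h0
    simp at this
  have hy10 : y1 ≠ 0 := by rw [hy1']; exact mul_ne_zero h1δ hy0
  have hhy : 0 < h y := hpos y hyS hy0
  have hhy1 : 0 < h y1 := hpos y1 hy1S hy10
  have hh0 : h ≠ 0 := by
    rintro rfl
    simp at hhy
  -- scaled points
  have hmem : ∀ z ∈ S, 0 < h z → (O + (c / h z) • z) ∈
      {x : ℂ | f₀ (x - O) ≤ 0 ∧ (∀ h' ∈ H, h' (x - O) ≤ h (x - O)) ∧ h (x - O) = c} := by
    intro z hz hhz
    rw [hS] at hz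
    have hs : 0 ≤ c / h z := by positivity
    simp only [Set.mem_ofPred_eq, add_sub_cancel_left, map_smul, smul_eq_mul]
    refine ⟨mul_nonpos_of_nonneg_of_nonpos hs hz.1, fun h' hh' => mul_le_mul_of_nonneg_left (hz.2 h' hh') hs, ?_⟩
    field_simp
  have hnt : {x : ℂ | f₀ (x - O) ≤ 0 ∧ (∀ h' ∈ H, h' (x - O) ≤ h (x - O)) ∧ h (x - O) = c}.Nontrivial := by
    refine ⟨_, hmem y hyS hhy, _, hmem y1 hy1S hhy1, ?_⟩
    intro heq
    have h2 : (c / h y) • y = (c / h y1) • y1 := add_left_cancel heq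
    rw [hy1'] at h2
    have h3 : ((c / h y : ℝ) : ℂ) = ((c / h y1 : ℝ) : ℂ) * (1 + (δ : ℂ) * Complex.I) := by
      have h4 : ((c / h y : ℝ) : ℂ) * y = (((c / h y1 : ℝ) : ℂ) * (1 + (δ : ℂ) * Complex.I)) * y := by
        rw [← hy1'] at h2
        rw [mul_assoc, ← hy1']
        simpa only [Complex.real_smul] using h2
      exact mul_right_cancel₀ hy0 h4
    have h5 := congrArg Complex.im h3
    rw [Complex.ofReal_im, Complex.im_ofReal_mul, Complex.add_im, Complex.one_im, Complex.im_ofReal_mul,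
      Complex.I_im] at h5
    have h6 : 0 < c / h y1 * (0 + δ * 1) := by
      have : 0 < c / h y1 := by positivity
      have h7 : 0 < (0 + δ * 1) := by linarith
      exact mul_pos this h7
    exact absurd h5 h6.ne
  refine ⟨{x : ℂ | f₀ (x - O) ≤ 0 ∧ (∀ h' ∈ H, h' (x - O) ≤ h (x - O)) ∧ h (x - O) = c}, ?_, ?_⟩
  · refine ⟨hnt, -h, -c - h O, neg_ne_zero.2 hh0, ?_, ?_⟩
    · rintro x ⟨-, -, h3, -⟩
      rw [map_sub, ← hc] at h3
      simp only [ContinuousLinearMap.neg_apply]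
      linarith
    · ext x
      simp only [Set.mem_ofPred_eq, pc, ContinuousLinearMap.neg_apply, map_sub]
      constructor
      · rintro ⟨a, b, e⟩
        refine ⟨⟨a, b, ?_, ?_⟩, ?_⟩
        · rw [← hc]; linarith
        · linarith
        · linarith
      · rintro ⟨⟨a, b, -, -⟩, e⟩
        exact ⟨a, b, by linarith⟩
  · refine ⟨hnt, h, c + h O, hh0, ?_, ?_⟩
    · rintro x ⟨-, -, -, h3⟩
      rw [map_sub, ← hc] at h3
      linarith
    · ext x
      simp only [Set.mem_ofPred_eq, pc, map_sub]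
      constructor
      · rintro ⟨a, b, e⟩
        refine ⟨⟨a, b, ?_, ?_⟩, ?_⟩
        · linarith
        · rw [← hc]; linarith
        · linarith
      · rintro ⟨⟨a, b, -, -⟩, e⟩
        exact ⟨a, b, by linarith⟩

end Pool.Agent.K4H59.TL
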