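import Mathlib

/-!
# The choice of the parameters
-/

set_option autoImplicit false

namespace Pool.Agent.K4H42

theorem gk_cont (a0 δ t : ℝ) (k m : ℕ) : Continuous fun x : ℝ => (a0 * x + k * δ) * x ^ m * t := by
  fun_prop

/-- parameters for the emptiness -/
theorem par_E {a0 δ t r : ℝ} (m : ℕ) (ha0 : 2 ≤ a0) (hδ : 0 < δ) (ht : a0 ≤ t)
    (hr : t ^ (m + 2) * (t + δ / a0) ≤ r) :
    ∃ (k : ℕ) (ρ : ℝ), 2 ≤ ρ ∧ a0 ≤ a0 + k * δ / ρ ∧
      r ≤ ρ ^ (m + 1) * (a0 + k * δ / ρ) ^ 2 ∧ r ≤ ρ ^ (m + 2) * (a0 + k * δ / ρ) ∧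
      ρ ^ (m + 1) * (a0 + k * δ / ρ) * t = r := by
  have ha00 : 0 < a0 := by linarith
  have ht0 : 0 < t := by linarith
  have hδa : 0 < δ / a0 := by positivity
  have hr1 : t ^ (m + 3) ≤ r := by
    refine le_trans ?_ hr
    have : t ^ (m + 3) = t ^ (m + 2) * t := by ring
    rw [this]
    have h1 : 0 < t ^ (m + 2) := by positivity
    nlinarith
  have hr0 : 0 < r := lt_of_lt_of_le (by positivity) hr1
  obtain ⟨y, hy⟩ : ∃ y : ℝ, y = (r / t ^ 2) ^ ((1 : ℝ) / ((m + 1 : ℕ) : ℝ)) := ⟨_, rfl⟩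
  have hy0 : 0 < y := by rw [hy]; positivity
  have hym : y ^ (m + 1) = r / t ^ 2 := by
    rw [hy, one_div, Real.rpow_inv_natCast_pow (by positivity) (by omega)]
  have hty : t ≤ y := by
    by_contra hcon
    push Not at hcon
    have h1 : y ^ (m + 1) < t ^ (m + 1) := pow_lt_pow_left₀ hcon hy0.le (by omega)
    rw [hym, div_lt_iff₀ (by positivity)] at h1
    have : t ^ (m + 1) * t ^ 2 = t ^ (m + 3) := by ring
    linarith
  -- `y ≤ C t`
  obtain ⟨C, hC⟩ : ∃ C : ℝ, C = r / t ^ (m + 3) := ⟨_, rfl⟩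
  have hrC : r = C * t ^ (m + 3) := by rw [hC]; field_simp
  have hC1 : 1 + δ / (a0 * t) ≤ C := by
    rw [hC, le_div_iff₀ (by positivity)]
    refine le_trans (le_of_eq ?_) hr
    field_simp
    ring
  have hC1' : 1 ≤ C := by
    have : 0 < δ / (a0 * t) := by positivity
    linarith
  have hyC : y ≤ C * t := by
    by_contra hcon
    push Not at hcon
    have h1 : (C * t) ^ (m + 1) < y ^ (m + 1) := pow_lt_pow_left₀ hcon (by positivity) (by omega)
    have h2 : y ^ (m + 1) = C * t ^ (m + 1) := by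
      rw [hym, hrC, div_eq_iff (by positivity)]
      ring
    rw [h2, mul_pow] at h1
    have h3 : C ≤ C ^ (m + 1) := le_self_pow₀ hC1' (by omega)
    have h4 : C * t ^ (m + 1) ≤ C ^ (m + 1) * t ^ (m + 1) :=
      mul_le_mul_of_nonneg_right h3 (by positivity)
    linarith
  obtain ⟨k, hk⟩ : ∃ k : ℕ, k = ⌈y * (t - a0) / δ⌉₊ := ⟨_, rfl⟩
  have hk1 : y * (t - a0) ≤ k * δ := by
    have h1 : y * (t - a0) / δ ≤ k := by rw [hk]; exact Nat.le_ceil _
    rwa [div_le_iff₀ hδ] at h1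
  have hnn : 0 ≤ y * (t - a0) / δ := by
    have : 0 ≤ t - a0 := by linarith
    positivity
  have hk2 : k * δ < y * (t - a0) + δ := by
    have h1 : (k : ℝ) < y * (t - a0) / δ + 1 := by rw [hk]; exact Nat.ceil_lt_add_one hnn
    have h2 : y * (t - a0) / δ + 1 = (y * (t - a0) + δ) / δ := by field_simp
    rw [h2, lt_div_iff₀ hδ] at h1
    exact h1
  have hk3 : k * δ ≤ C * t ^ 2 - a0 * t := by
    have h1 : y * (t - a0) ≤ C * t * (t - a0) := mul_le_mul_of_nonneg_right hyC (by linarith)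
    have h2 : δ ≤ a0 * t * (C - 1) := by
      have h3 : δ / (a0 * t) ≤ C - 1 := by linarith
      rw [div_le_iff₀ (by positivity)] at h3
      linarith
    nlinarith
  -- the intermediate value theorem
  have hg1 : (a0 * t + k * δ) * t ^ m * t ≤ r := by
    have h1 : (a0 * t + k * δ) ≤ C * t ^ 2 := by linarith
    calc (a0 * t + k * δ) * t ^ m * t = (a0 * t + k * δ) * t ^ (m + 1) := by ring
      _ ≤ C * t ^ 2 * t ^ (m + 1) := mul_le_mul_of_nonneg_right h1 (by positivity)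
      _ = r := by rw [hrC]; ring
  have hg2 : r ≤ (a0 * y + k * δ) * y ^ m * t := by
    have h1 : y * t ≤ a0 * y + k * δ := by nlinarith
    have h2 : r = y * t * (y ^ m * t) := by
      have : y * t * (y ^ m * t) = y ^ (m + 1) * t ^ 2 := by ring
      rw [this, hym]
      field_simp
    calc r = y * t * (y ^ m * t) := h2
      _ ≤ (a0 * y + k * δ) * (y ^ m * t) := mul_le_mul_of_nonneg_right h1 (by positivity)
      _ = _ := by ring
  obtain ⟨ρ, hρ, hρr⟩ := intermediate_value_Icc hty (gk_cont a0 δ t k m).continuousOn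
    ⟨hg1, hg2⟩
  have hρt : t ≤ ρ := hρ.1
  have hρ0 : 0 < ρ := by linarith
  have hkey : ρ ^ (m + 1) * (a0 + k * δ / ρ) * t = r := by
    rw [← hρr]
    field_simp
    ring
  have hka : 0 ≤ k * δ / ρ := by positivity
  have hat : t ≤ a0 + k * δ / ρ := by
    have h1 : t - a0 ≤ k * δ / ρ := by
      rw [le_div_iff₀ hρ0]
      have : (t - a0) * ρ ≤ (t - a0) * y := mul_le_mul_of_nonneg_left hρ.2 (by linarith)
      linarith
    linarith
  have hP : ρ ^ (m + 1) * (a0 + k * δ / ρ) = r / t := by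
    rw [← hkey]; field_simp
  refine ⟨k, ρ, by linarith, by linarith, ?_, ?_, hkey⟩
  · have : ρ ^ (m + 1) * (a0 + k * δ / ρ) ^ 2 =
        ρ ^ (m + 1) * (a0 + k * δ / ρ) * (a0 + k * δ / ρ) := by ring
    rw [this, hP]
    calc r = r / t * t := by field_simp
      _ ≤ r / t * (a0 + k * δ / ρ) := mul_le_mul_of_nonneg_left hat (by positivity)
  · have : ρ ^ (m + 2) * (a0 + k * δ / ρ) = ρ ^ (m + 1) * (a0 + k * δ / ρ) * ρ := by ring
    rw [this, hP]
    calc r = r / t * t := by field_simp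
      _ ≤ r / t * ρ := mul_le_mul_of_nonneg_left hρt (by positivity)

/-- parameters for the independence, if `r` is a value of the function -/
theorem par_S_eq {a0 δ t r : ℝ} (m : ℕ) (ha0 : 2 ≤ a0) (hδ : 0 < δ) (ht : a0 ≤ t)
    (ht2 : 2 ≤ t - δ / a0) (hr : r = t ^ (m + 2) * (t - δ / a0)) :
    ∃ (k : ℕ) (ρ : ℝ), 2 ≤ ρ ∧ ρ ≤ t ∧ a0 + k * δ / ρ ≤ t ∧
      ρ ^ (m + 1) * (a0 + k * δ / ρ) ^ 2 ≤ r ∧ ρ ^ (m + 2) * (a0 + k * δ / ρ) ≤ r ∧
      ρ ^ (m + 1) * (a0 + k * δ / ρ) * t = r := by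
  have ha00 : 0 < a0 := by linarith
  have ht0 : 0 < t := by linarith
  have hδa : 0 < δ / a0 := by positivity
  have hr0 : 0 < r := by rw [hr]; have : 0 < t - δ / a0 := by linarith
                         positivity
  obtain ⟨y, hy⟩ : ∃ y : ℝ, y = (r / t ^ 2) ^ ((1 : ℝ) / ((m + 1 : ℕ) : ℝ)) := ⟨_, rfl⟩
  have hy0 : 0 < y := by rw [hy]; positivity
  have hym : y ^ (m + 1) = r / t ^ 2 := by
    rw [hy, one_div, Real.rpow_inv_natCast_pow (by positivity) (by omega)]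
  obtain ⟨C, hC⟩ : ∃ C : ℝ, C = 1 - δ / (a0 * t) := ⟨_, rfl⟩
  have hCt : C * t = t - δ / a0 := by rw [hC]; field_simp
  have hrC : r = C * t ^ (m + 3) := by
    have : C * t ^ (m + 3) = t ^ (m + 2) * (C * t) := by ring
    rw [this, hCt, hr]
  have hC0 : 0 < C := by
    by_contra hcon
    push Not at hcon
    nlinarith
  have hC1' : C ≤ 1 := by
    rw [hC]
    have : 0 < δ / (a0 * t) := by positivity
    linarith
  have hym' : y ^ (m + 1) = C * t ^ (m + 1) := by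
    rw [hym, hrC, div_eq_iff (by positivity)]
    ring
  have hty : y ≤ t := by
    by_contra hcon
    push Not at hcon
    have h1 : t ^ (m + 1) < y ^ (m + 1) := pow_lt_pow_left₀ hcon ht0.le (by omega)
    rw [hym'] at h1
    have : 0 < t ^ (m + 1) := by positivity
    nlinarith
  have hyC : C * t ≤ y := by
    by_contra hcon
    push Not at hcon
    have h1 : y ^ (m + 1) < (C * t) ^ (m + 1) := pow_lt_pow_left₀ hcon hy0.le (by omega)
    rw [hym', mul_pow] at h1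
    have h3 : C ^ (m + 1) ≤ C := pow_le_of_le_one hC0.le hC1' (by omega)
    have h4 : C ^ (m + 1) * t ^ (m + 1) ≤ C * t ^ (m + 1) :=
      mul_le_mul_of_nonneg_right h3 (by positivity)
    linarith
  have hnn : 0 ≤ y * (t - a0) / δ := by
    have : 0 ≤ t - a0 := by linarith
    positivity
  obtain ⟨k, hk⟩ : ∃ k : ℕ, k = ⌊y * (t - a0) / δ⌋₊ := ⟨_, rfl⟩
  have hk1 : k * δ ≤ y * (t - a0) := by
    have h1 : (k : ℝ) ≤ y * (t - a0) / δ := by rw [hk]; exact Nat.floor_le hnn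
    rwa [le_div_iff₀ hδ] at h1
  have hk2 : y * (t - a0) - δ ≤ k * δ := by
    have h1 : y * (t - a0) / δ < k + 1 := by rw [hk]; exact Nat.lt_floor_add_one _
    rw [div_lt_iff₀ hδ] at h1
    linarith
  have hk3 : C * t ^ 2 - a0 * t ≤ k * δ := by
    have h1 : C * t * (t - a0) ≤ y * (t - a0) := mul_le_mul_of_nonneg_right hyC (by linarith)
    have h2 : δ = a0 * t * (1 - C) := by
      rw [hC]
      field_simp
      ring
    nlinarith
  have hg1 : r ≤ (a0 * t + k * δ) * t ^ m * t := by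
    have h1 : C * t ^ 2 ≤ a0 * t + k * δ := by linarith
    calc r = C * t ^ 2 * t ^ (m + 1) := by rw [hrC]; ring
      _ ≤ (a0 * t + k * δ) * t ^ (m + 1) := mul_le_mul_of_nonneg_right h1 (by positivity)
      _ = _ := by ring
  have hg2 : (a0 * y + k * δ) * y ^ m * t ≤ r := by
    have h1 : a0 * y + k * δ ≤ y * t := by nlinarith
    have h2 : r = y * t * (y ^ m * t) := by
      have : y * t * (y ^ m * t) = y ^ (m + 1) * t ^ 2 := by ring
      rw [this, hym]
      field_simp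
    calc (a0 * y + k * δ) * y ^ m * t = (a0 * y + k * δ) * (y ^ m * t) := by ring
      _ ≤ y * t * (y ^ m * t) := mul_le_mul_of_nonneg_right h1 (by positivity)
      _ = r := h2.symm
  obtain ⟨ρ, hρ, hρr⟩ := intermediate_value_Icc hty (gk_cont a0 δ t k m).continuousOn
    ⟨hg2, hg1⟩
  have hρy : y ≤ ρ := hρ.1
  have hρt : ρ ≤ t := hρ.2
  have hρ2 : 2 ≤ ρ := by linarith
  have hρ0 : 0 < ρ := by linarith
  have hkey : ρ ^ (m + 1) * (a0 + k * δ / ρ) * t = r := by
    rw [← hρr]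
    field_simp
    ring
  have hat : a0 + k * δ / ρ ≤ t := by
    have h1 : k * δ / ρ ≤ t - a0 := by
      rw [div_le_iff₀ hρ0]
      have : (t - a0) * y ≤ (t - a0) * ρ := mul_le_mul_of_nonneg_left hρy (by linarith)
      linarith
    linarith
  have hP : ρ ^ (m + 1) * (a0 + k * δ / ρ) = r / t := by
    rw [← hkey]; field_simp
  refine ⟨k, ρ, hρ2, hρt, hat, ?_, ?_, hkey⟩
  · have : ρ ^ (m + 1) * (a0 + k * δ / ρ) ^ 2 =
        ρ ^ (m + 1) * (a0 + k * δ / ρ) * (a0 + k * δ / ρ) := by ring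
    rw [this, hP]
    calc r / t * (a0 + k * δ / ρ) ≤ r / t * t := mul_le_mul_of_nonneg_left hat (by positivity)
      _ = r := by field_simp
  · have : ρ ^ (m + 2) * (a0 + k * δ / ρ) = ρ ^ (m + 1) * (a0 + k * δ / ρ) * ρ := by ring
    rw [this, hP]
    calc r / t * ρ ≤ r / t * t := mul_le_mul_of_nonneg_left hρt (by positivity)
      _ = r := by field_simp

/-- the value `t` of the function `t ^ (m + 2) * (t - δ)` -/
theorem exists_t {δ t0 t r : ℝ} (m : ℕ) (ht : t0 ≤ t) (h0 : t0 ^ (m + 2) * (t0 - δ) ≤ r)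
    (h1 : r ≤ t ^ (m + 2) * (t - δ)) : ∃ t1, t0 ≤ t1 ∧ t1 ≤ t ∧ r = t1 ^ (m + 2) * (t1 - δ) := by
  obtain ⟨t1, h2, h3⟩ := intermediate_value_Icc ht
    (f := fun x : ℝ => x ^ (m + 2) * (x - δ)) (by fun_prop) ⟨h0, h1⟩
  exact ⟨t1, h2.1, h2.2, h3.symm⟩

end Pool.Agent.K4H42
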