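import Pool.Agent.TH3.IR.SAsm

/-!
# Independence on the simplex for fewer than `3 ^ N` points
-/

set_option autoImplicit false

namespace Pool.Agent.K4H42

open Finset Pool.Agent.TH603.EL Pool.Agent.TH3.IR

theorem goodS_congr {ι σ : Type} [Fintype ι] [Fintype σ] {w : ι → ℕ} {W W' : ℝ} {s s' : σ → ℝ}
    (h : SAsm.Good w W s) (hW : W = W') (hs : ∀ i, s i = s' i) : SAsm.Good w W' s' := by
  subst hW
  have : s = s' := funext hs
  subst this
  exact h

/-- all the coordinates which are not in `T` are treated with the factor `ρ` -/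
theorem rest_S {ι σ : Type} [Fintype ι] [Fintype σ] [DecidableEq σ] {M : ℕ} {ρ : ℝ}
    (hρ : 2 ≤ ρ) (m : ℕ) : ∀ (T : Finset σ) (W : ℝ) (s : σ → ℝ) (c : ℝ), T.card + m = Fintype.card σ →
      (∀ i, i ∉ T → s i = c) → 5 / 2 ≤ c → (∀ i, 0 < s i) →
      (∀ i, i ∈ T → ρ ^ m * s i ≤ (Fintype.card ι : ℝ)) →
      ρ ^ (m + 1) * c ≤ (Fintype.card ι : ℝ) * ρ →
      (0 < m → ρ ^ (m + 1) * c ≤ (Fintype.card ι : ℝ)) →
      (Fintype.card ι : ℝ) * M ≤ ρ ^ m * (W - m * (1 + ρ) * c - 1) + 1 →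
      SAsm.Good (fun _ : ι => M) W s := by
  induction m with
  | zero =>
    intro T W s c hT _ _ _ hTn _ _ hw
    have hTu : T = univ := (Finset.card_eq_iff_eq_univ T).1 (by omega)
    intro L R μ ν hμ hν hW hs
    apply SurS_final hμ hν
    · intro i
      rw [hs]
      have := hTn i (by rw [hTu]; exact mem_univ i)
      simpa using this
    · refine le_trans hw ?_
      refine le_trans (le_of_eq ?_) hW
      simp
  | succ m ih =>
    intro T W s c hT hc hc5 hs hTn _ hcn hw
    have hcn := hcn (Nat.succ_pos m)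
    obtain ⟨j, hj⟩ : ∃ j, j ∉ T := by
      by_contra hcon
      push Not at hcon
      have : T = univ := Finset.eq_univ_iff_forall.2 hcon
      rw [this, Finset.card_univ] at hT
      omega
    have hsj := hc j hj
    have hρ0 : 0 < ρ := by linarith
    have hc0 : 0 < c := by linarith
    have hcard : (insert j T).card = T.card + 1 := Finset.card_insert_of_notMem hj
    have hcn' : ρ ^ (m + 1) * (ρ * c) ≤ (Fintype.card ι : ℝ) := by
      refine le_trans (le_of_eq ?_) hcn
      ring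
    apply SAsm.nodal hs j (by rw [hsj]; exact hc5) hρ
    refine ih (insert j T) _ _ (ρ * c) (by omega) ?_ (by nlinarith) ?_ ?_ ?_ (fun _ => hcn') ?_
    · intro i hi
      rw [Finset.mem_insert] at hi
      push Not at hi
      rw [Function.update_of_ne hi.1, hc i hi.2]
    · intro i
      by_cases hi : i = j
      · subst hi
        rw [Function.update_self]
        have := hs i
        positivity
      · rw [Function.update_of_ne hi]
        have := hs i
        positivity
    · intro i hi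
      by_cases hij : i = j
      · subst hij
        rw [Function.update_self, hsj]
        refine le_trans (le_of_eq ?_) hcn
        ring
      · rw [Function.update_of_ne hij]
        have hiT : i ∈ T := by
          rcases Finset.mem_insert.1 hi with h | h
          · exact absurd h hij
          · exact h
        refine le_trans (le_of_eq ?_) (hTn i hiT)
        ring
    · have h0 : (0 : ℝ) ≤ (Fintype.card ι : ℝ) := Nat.cast_nonneg _
      nlinarith
    · refine hw.trans ?_
      rw [hsj]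
      push_cast
      have h1 : (0 : ℝ) < ρ ^ m := by positivity
      have h2 : ρ ^ m * (ρ * W - ρ * c - ρ / 2 - ρ ^ 2 * c - m * (1 + ρ) * (ρ * c) - 1) + 1 -
          (ρ ^ (m + 1) * (W - (m + 1) * (1 + ρ) * c - 1) + 1) = ρ ^ m * (ρ / 2 - 1) := by
        ring
      have h3 : 0 ≤ ρ ^ m * (ρ / 2 - 1) := mul_nonneg h1.le (by linarith)
      linarith

/-- the first two coordinates: nodal step at `j`, flattening at `j` with the factor `ρ / 2` and at
`i0` with the factor `a / a0` -/
theorem core_S {ι σ : Type} [Fintype ι] [Fintype σ] [DecidableEq σ] {w : ι → ℕ} (i0 j : σ)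
    (hij : i0 ≠ j) {a0 c1 c2 ρ L R : ℝ} (hL : 0 ≤ L) (hc1 : 0 ≤ c1) (hc2 : 0 ≤ c2)
    (hc : c1 + c2 = a0 ^ 2)
    (ha0 : 2 ≤ a0) (hρ : 2 ≤ ρ) (v v' : ℤ) (hv1 : 2 * a0 * ρ - 4 * a0 < v) (hv2 : v < 2 * a0 * ρ)
    {a : ℝ} (haa : a0 ≤ a) (ha : a0 * ρ * (a - a0) = v' - a0 * v / 2)
    (H : SAsm.Good w (ρ * a / a0 * (R - L - a0 - 1 / 2) - ρ ^ 2 * a - ρ * a ^ 2)
      (fun i => if i = i0 then ρ * a ^ 2 else if i = j then ρ ^ 2 * a else ρ * a)) :
    SurS w (RegS L R (Function.update (fun _ => 0) i0 c1) (Function.update (fun _ => a0) i0 c2)) := by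
  have ha00 : 0 < a0 := by linarith
  have hρ0 : 0 < ρ := by linarith
  have hji : j ≠ i0 := hij.symm
  obtain ⟨μ, hμ⟩ : ∃ μ : σ → ℝ, μ = Function.update (fun _ => 0) i0 c1 := ⟨_, rfl⟩
  obtain ⟨ν, hν⟩ : ∃ ν : σ → ℝ, ν = Function.update (fun _ => a0) i0 c2 := ⟨_, rfl⟩
  rw [← hμ, ← hν]
  have hμ0 : ∀ i, 0 ≤ μ i := by
    intro i
    rw [hμ]
    by_cases hi : i = i0
    · subst hi; rw [Function.update_self]; exact hc1
    · rw [Function.update_of_ne hi]
  have hν0 : ∀ i, 0 ≤ ν i := by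
    intro i
    rw [hν]
    by_cases hi : i = i0
    · subst hi; rw [Function.update_self]; exact hc2
    · rw [Function.update_of_ne hi]; exact ha00.le
  have hs : ∀ i, μ i + ν i = if i = i0 then a0 ^ 2 else a0 := by
    intro i
    rw [hμ, hν]
    by_cases hi : i = i0
    · subst hi; rw [Function.update_self, Function.update_self, if_pos rfl]; exact hc
    · rw [Function.update_of_ne hi, Function.update_of_ne hi, if_neg hi, zero_add]
  have hsj : μ j + ν j = a0 := by rw [hs, if_neg hji]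
  have hsi : μ i0 + ν i0 = a0 ^ 2 := by rw [hs, if_pos rfl]
  obtain ⟨τ, hτ⟩ : ∃ τ : ℝ, τ = (2 * a0 * ρ - v) / (4 * a0) := ⟨_, rfl⟩
  have hτv : 4 * τ * a0 = 2 * a0 * ρ - v := by
    rw [hτ]
    field_simp
  have h0 : 0 < τ := by
    rw [hτ]
    apply div_pos <;> linarith
  have h1 : τ < 1 := by
    rw [hτ, div_lt_one (by linarith)]
    linarith
  apply SN.nodal_pos hL hμ0 hν0 j _ h0 h1
  swap
  · rw [hν, Function.update_of_ne hji]
    linarith
  have hpos' : ∀ i, 0 < μ i + ν i := by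
    intro i
    rw [hs]
    split_ifs <;> positivity
  -- the region after the nodal step
  obtain ⟨μ1, hμ1⟩ : ∃ μ1 : σ → ℝ, μ1 =
    Function.update (fun i => 2 * τ * (μ i + ν i)) j (4 * τ * (μ j + ν j)) := ⟨_, rfl⟩
  obtain ⟨ν1, hν1⟩ : ∃ ν1 : σ → ℝ, ν1 =
    Function.update (fun i => 2 * (1 - τ) * (μ i + ν i)) j (4 * (1 - τ) * (μ j + ν j)) := ⟨_, rfl⟩
  rw [← hμ1, ← hν1]
  have hμ1j : μ1 j = 2 * a0 * ρ - v := by rw [hμ1, Function.update_self, hsj, hτv]
  have hν1j : ν1 j = 4 * a0 - (2 * a0 * ρ - v) := by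
    rw [hν1, Function.update_self, hsj, ← hτv]; ring
  have h1τ : 0 < 1 - τ := by linarith
  have hμ10 : ∀ i, 0 ≤ μ1 i := by
    intro i
    rw [hμ1]
    by_cases hi : i = j
    · subst hi; rw [Function.update_self]; have := hpos' i; positivity
    · rw [Function.update_of_ne hi]; have := hpos' i; positivity
  have hν10 : ∀ i, 0 ≤ ν1 i := by
    intro i
    rw [hν1]
    by_cases hi : i = j
    · subst hi; rw [Function.update_self]; have := hpos' i; positivity
    · rw [Function.update_of_ne hi]; have := hpos' i; positivity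
  have hs1 : ∀ i, i ≠ j → μ1 i + ν1 i = 2 * (μ i + ν i) := by
    intro i hi
    rw [hμ1, hν1, Function.update_of_ne hi, Function.update_of_ne hi]; ring
  have hs1j : μ1 j + ν1 j = 4 * a0 := by rw [hμ1j, hν1j]; ring
  have hpos1 : ∀ i, 0 < μ1 i + ν1 i := by
    intro i
    by_cases hi : i = j
    · rw [hi, hs1j]; positivity
    · rw [hs1 i hi]; have := hpos' i; positivity
  have hμ1i : μ1 i0 = a0 ^ 2 * ρ - a0 * v / 2 := by
    rw [hμ1, Function.update_of_ne hij, hsi]
    have : 2 * τ * a0 ^ 2 = (4 * τ * a0) * a0 / 2 := by ring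
    rw [this, hτv]; ring
  have hs1i : μ1 i0 + ν1 i0 = 2 * a0 ^ 2 := by rw [hs1 i0 hij, hsi]
  have hjv : μ1 j + v = 2 * a0 * ρ := by rw [hμ1j]; ring
  have hvj : (v : ℝ) - ν1 j = 2 * a0 * (ρ - 2) := by rw [hν1j]; ring
  refine SurS_flat hμ10 hν10 hpos1 j v ?_ (by rw [hjv]; positivity) ?_
  · rw [hν1j]; nlinarith
  rw [hs1j, hjv, hvj, hsj]
  obtain ⟨μ2, hμ2⟩ : ∃ μ2 : σ → ℝ, μ2 = Function.update μ1 j (2 * a0 * ρ) := ⟨_, rfl⟩
  obtain ⟨ν2, hν2⟩ : ∃ ν2 : σ → ℝ, ν2 =
    Function.update (fun i => (ν1 i * (2 * a0 * ρ) + μ1 i * (2 * a0 * (ρ - 2))) / (4 * a0)) j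
      (2 * a0 * ρ * (2 * a0 * (ρ - 2)) / (4 * a0)) := ⟨_, rfl⟩
  rw [← hμ2, ← hν2]
  have hρ2 : 0 ≤ ρ - 2 := by linarith
  have hμ20 : ∀ i, 0 ≤ μ2 i := by
    intro i
    rw [hμ2]
    by_cases hi : i = j
    · subst hi; rw [Function.update_self]; positivity
    · rw [Function.update_of_ne hi]; exact hμ10 i
  have hν20 : ∀ i, 0 ≤ ν2 i := by
    intro i
    rw [hν2]
    by_cases hi : i = j
    · subst hi; rw [Function.update_self]; positivity
    · rw [Function.update_of_ne hi]; have := hμ10 i; have := hν10 i; positivity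
  have hs2j : μ2 j + ν2 j = ρ ^ 2 * a0 := by
    rw [hμ2, hν2, Function.update_self, Function.update_self]
    field_simp
    ring
  have hs2 : ∀ i, i ≠ j → μ2 i + ν2 i = ρ / 2 * (μ1 i + ν1 i) := by
    intro i hi
    rw [hμ2, hν2, Function.update_of_ne hi, Function.update_of_ne hi]
    field_simp
    ring
  have hpos2 : ∀ i, 0 < μ2 i + ν2 i := by
    intro i
    by_cases hi : i = j
    · rw [hi, hs2j]; positivity
    · rw [hs2 i hi]; have := hpos1 i; positivity
  have hs2i : μ2 i0 + ν2 i0 = a0 ^ 2 * ρ := by rw [hs2 i0 hij, hs1i]; ring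
  have hμ2i : μ2 i0 = a0 ^ 2 * ρ - a0 * v / 2 := by rw [hμ2, Function.update_of_ne hij, hμ1i]
  have hν2i : ν2 i0 = a0 * v / 2 := by linarith
  have hk : 0 ≤ a0 * ρ * (a - a0) := by
    have : 0 ≤ a - a0 := by linarith
    positivity
  have ha0' : 0 < a := by linarith
  refine SAsm.flat (lam := a / a0) hμ20 hν20 hpos2 i0 v' ?_ (by positivity) ?_ ?_
  · rw [hν2i]; linarith
  · rw [hs2i, hμ2i]
    have e : a / a0 * (a0 ^ 2 * ρ) = a0 * ρ * a := by field_simp
    rw [e]
    linarith
  · refine goodS_congr H ?_ ?_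
    · rw [hs2i]
      field_simp
      ring
    · intro i
      by_cases hi : i = i0
      · subst hi
        rw [if_pos rfl, Function.update_self, hs2i]
        field_simp
      · rw [if_neg hi, Function.update_of_ne hi]
        by_cases hi2 : i = j
        · subst hi2
          rw [if_pos rfl, hs2j]
          field_simp
        · rw [if_neg hi2, hs2 i hi2, hs1 i hi2, hs, if_neg hi]
          field_simp

end Pool.Agent.K4H42
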