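import Pool.Agent.K4H42.WE
import Pool.Agent.K4H42.WS
import Pool.Agent.K4H42.WP

/-!
# Emptiness and independence on the simplex
-/

set_option autoImplicit false

namespace Pool.Agent.K4H42

open Finset Pool.Agent.TH603.EL Pool.Agent.TH3.IR

section start
variable {ι σ : Type} [Fintype σ]

theorem regS_congr {L L' R R' : ℝ} {μ μ' ν ν' : σ → ℝ} (hL : L = L') (hR : R = R')
    (hμ : ∀ i, μ i = μ' i) (hν : ∀ i, ν i = ν' i) : RegS L R μ ν = RegS L' R' μ' ν' := by
  rw [hL, hR, funext hμ, funext hν]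

variable [DecidableEq σ] {w : ι → ℕ}

/-- flattening with the factor `2` -/
theorem start2_E (i0 : σ) {d : ℝ}
    (h : EmpS w (RegS 0 (2 * d) (Function.update (fun _ => 0) i0 2)
      (Function.update (fun _ => 2) i0 2))) :
    EmpS w (RegS (0 : ℝ) d (fun _ : σ => 0) (fun _ => 1)) := by
  refine EmpS_flat (fun _ => le_rfl) (fun _ => zero_le_one) i0 (by norm_num)
    (fun _ => by norm_num) 2 (by norm_num) ?_
  refine (congrArg (EmpS w) (regS_congr rfl ?_ ?_ ?_)).mpr h
  · push_cast; ring
  · intro i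
    by_cases hi : i = i0
    · subst hi; rw [Function.update_self, Function.update_self]; push_cast; ring
    · rw [Function.update_of_ne hi, Function.update_of_ne hi]
  · intro i
    by_cases hi : i = i0
    · subst hi; rw [Function.update_self, Function.update_self]; push_cast; norm_num
    · rw [Function.update_of_ne hi, Function.update_of_ne hi]; push_cast; norm_num

/-- flattening with the factor `5 / 2` -/
theorem start5_E (i0 : σ) {d : ℝ}
    (h : EmpS w (RegS 0 (5 / 2 * d) (Function.update (fun _ => 0) i0 5)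
      (Function.update (fun _ => 5 / 2) i0 (5 / 4)))) :
    EmpS w (RegS (0 : ℝ) d (fun _ : σ => 0) (fun _ => 1)) := by
  refine start2_E i0 ?_
  have hs : Function.update (fun _ : σ => (0 : ℝ)) i0 2 i0 = 2 := Function.update_self ..
  have hs' : Function.update (fun _ : σ => (2 : ℝ)) i0 2 i0 = 2 := Function.update_self ..
  have h0 : ∀ i, 0 ≤ Function.update (fun _ : σ => (0 : ℝ)) i0 2 i := by
    intro i
    by_cases hi : i = i0
    · subst hi; rw [Function.update_self]; norm_num
    · rw [Function.update_of_ne hi]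
  have h0' : ∀ i, 2 ≤ Function.update (fun _ : σ => (2 : ℝ)) i0 2 i := by
    intro i
    by_cases hi : i = i0
    · subst hi; rw [Function.update_self]
    · rw [Function.update_of_ne hi]
  refine EmpS_flat h0 (fun i => by linarith [h0' i]) i0 (by rw [hs, hs']; norm_num)
    (fun i => by linarith [h0 i, h0' i]) 3 (by rw [hs']; norm_num) ?_
  refine (congrArg (EmpS w) (regS_congr rfl ?_ ?_ ?_)).mpr h
  · rw [hs, hs']; push_cast; ring
  · intro i
    by_cases hi : i = i0
    · subst hi; simp only [Function.update_self]; push_cast; ring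
    · simp only [Function.update_of_ne hi]
  · intro i
    by_cases hi : i = i0
    · subst hi; simp only [Function.update_self]; push_cast; norm_num
    · simp only [Function.update_of_ne hi, Function.update_self]; push_cast; norm_num

/-- flattening with the factor `2` -/
theorem start2_S [Fintype ι] (i0 : σ) {d : ℝ}
    (h : SurS w (RegS 2 (2 * d - 2) (Function.update (fun _ => 0) i0 2)
      (Function.update (fun _ => 2) i0 2))) :
    SurS w (RegS (0 : ℝ) d (fun _ : σ => 0) (fun _ => 1)) := by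
  refine SurS_flat (fun _ => le_rfl) (fun _ => zero_le_one)
    (fun _ => by norm_num) i0 2 (by norm_num) (by norm_num) ?_
  refine (congrArg (SurS w) (regS_congr ?_ ?_ ?_ ?_)).mpr h
  · push_cast; ring
  · push_cast; ring
  · intro i
    by_cases hi : i = i0
    · subst hi; rw [Function.update_self, Function.update_self]; push_cast; ring
    · rw [Function.update_of_ne hi, Function.update_of_ne hi]
  · intro i
    by_cases hi : i = i0
    · subst hi; rw [Function.update_self, Function.update_self]; push_cast; norm_num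
    · rw [Function.update_of_ne hi, Function.update_of_ne hi]; push_cast; norm_num

/-- flattening with the factor `5 / 2` -/
theorem start5_S [Fintype ι] (i0 : σ) {d : ℝ}
    (h : SurS w (RegS 7 ((10 * d - 17) / 4) (Function.update (fun _ => 0) i0 5)
      (Function.update (fun _ => 5 / 2) i0 (5 / 4)))) :
    SurS w (RegS (0 : ℝ) d (fun _ : σ => 0) (fun _ => 1)) := by
  refine start2_S i0 ?_
  have hs : Function.update (fun _ : σ => (0 : ℝ)) i0 2 i0 = 2 := Function.update_self ..
  have hs' : Function.update (fun _ : σ => (2 : ℝ)) i0 2 i0 = 2 := Function.update_self ..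
  have h0 : ∀ i, 0 ≤ Function.update (fun _ : σ => (0 : ℝ)) i0 2 i := by
    intro i
    by_cases hi : i = i0
    · subst hi; rw [Function.update_self]; norm_num
    · rw [Function.update_of_ne hi]
  have h0' : ∀ i, 2 ≤ Function.update (fun _ : σ => (2 : ℝ)) i0 2 i := by
    intro i
    by_cases hi : i = i0
    · subst hi; rw [Function.update_self]
    · rw [Function.update_of_ne hi]
  refine SurS_flat h0 (fun i => by linarith [h0' i])
    (fun i => by linarith [h0 i, h0' i]) i0 3 (by rw [hs']; norm_num) (by rw [hs]; norm_num) ?_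
  refine (congrArg (SurS w) (regS_congr ?_ ?_ ?_ ?_)).mpr h
  · rw [hs]; push_cast; ring
  · rw [hs, hs']; push_cast; ring
  · intro i
    by_cases hi : i = i0
    · subst hi; simp only [Function.update_self]; push_cast; ring
    · simp only [Function.update_of_ne hi]
  · intro i
    by_cases hi : i = i0
    · subst hi; simp only [Function.update_self]; push_cast; norm_num
    · simp only [Function.update_of_ne hi, Function.update_self]; push_cast; norm_num

end start

/-- the first factor `a0` with the step `δ` -/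
inductive First : ℝ → ℝ → Prop
  | two : First 2 (1 / 2)
  | five : First (5 / 2) (1 / 10)

/-- the integers for the two flattenings -/
theorem exists_vv {a0 δ : ℝ} (h : First a0 δ) (k : ℕ) {ρ : ℝ} (hρ : 2 ≤ ρ) :
    ∃ v v' : ℤ, 2 * a0 * ρ - 4 * a0 < v ∧ v < 2 * a0 * ρ ∧
      a0 * ρ * (k * δ / ρ) = v' - a0 * v / 2 := by
  have hρ0 : 0 < ρ := by linarith
  cases h with
  | two =>
    obtain ⟨v, hv0, hv1⟩ := Asm.exists_int (4 * ρ)
    refine ⟨v, v + k, by linarith, by linarith, ?_⟩
    push_cast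
    field_simp
    ring
  | five =>
    obtain ⟨v, hv0, hv1⟩ := Asm.exists_int (5 * ρ)
    obtain ⟨e, he0, he3, q, hq⟩ : ∃ e : ℤ, 0 ≤ e ∧ e ≤ 3 ∧ ∃ q : ℤ, 5 * (v - e) + k = 4 * q := by
      refine ⟨(v + k) % 4, Int.emod_nonneg _ (by norm_num), ?_, ?_⟩
      · have := Int.emod_lt_of_pos (v + k) (show (0 : ℤ) < 4 by norm_num)
        omega
      · refine ⟨(5 * (v - (v + k) % 4) + k) / 4, ?_⟩
        omega
    refine ⟨v - e, q, ?_, ?_, ?_⟩
    · push_cast
      have : (e : ℝ) ≤ 3 := by exact_mod_cast he3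
      linarith
    · push_cast
      have : (0 : ℝ) ≤ e := by exact_mod_cast he0
      linarith
    · have hq' : (5 * ((v : ℝ) - e) + k) = 4 * q := by exact_mod_cast hq
      push_cast
      field_simp
      linarith

theorem First.ge {a0 δ : ℝ} (h : First a0 δ) : 2 ≤ a0 := by
  cases h <;> norm_num

theorem First.pos {a0 δ : ℝ} (h : First a0 δ) : 0 < δ := by
  cases h <;> norm_num

/-- emptiness on the simplex -/
theorem simplex_E {ι σ : Type} [Fintype ι] [Fintype σ] [DecidableEq σ] {w : ι → ℕ} {a0 δ : ℝ}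
    (hf : First a0 δ) {m : ℕ} (hσ : Fintype.card σ = m + 2) (d : ℕ) (k : ℕ) {ρ : ℝ} (hρ : 2 ≤ ρ)
    (h1 : (Fintype.card ι : ℝ) ≤ ρ ^ (m + 1) * (a0 + k * δ / ρ) ^ 2)
    (h2 : (Fintype.card ι : ℝ) ≤ ρ ^ (m + 2) * (a0 + k * δ / ρ))
    (h3 : ρ ^ (m + 1) * (a0 + k * δ / ρ) * d < ∑ i, (w i : ℝ)) :
    EmpS w (RegS (0 : ℝ) d (fun _ : σ => 0) (fun _ => 1)) := by
  have ha0 := hf.ge
  have hδ := hf.pos
  have hρ0 : 0 < ρ := by linarith
  obtain ⟨a, ha⟩ : ∃ a : ℝ, a = a0 + k * δ / ρ := ⟨_, rfl⟩
  have haa : a0 ≤ a := by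
    rw [ha]
    have : 0 ≤ k * δ / ρ := by positivity
    linarith
  rw [← ha] at h1 h2 h3
  have ha' : 0 < a := by linarith
  obtain ⟨i0, j, hij⟩ : ∃ i0 j : σ, i0 ≠ j := by
    have : 1 < Fintype.card σ := by omega
    obtain ⟨i0, j, h⟩ := Fintype.one_lt_card_iff.1 this
    exact ⟨i0, j, h⟩
  obtain ⟨v, v', hv1, hv2, hv3⟩ := exists_vv hf k hρ
  have hv3' : a0 * ρ * (a - a0) = v' - a0 * v / 2 := by
    rw [← hv3, ha]
    ring
  have hG : Asm.Good w (ρ * a * d)
      (fun i => if i = i0 then ρ * a ^ 2 else if i = j then ρ ^ 2 * a else ρ * a) := by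
    refine rest_E hρ m {i0, j} _ _ (ρ * a) ?_ ?_ (by nlinarith) ?_ ?_ ?_ ?_
    · rw [Finset.card_pair hij]; omega
    · intro i hi
      simp only [Finset.mem_insert, Finset.mem_singleton, not_or] at hi
      rw [if_neg hi.1, if_neg hi.2]
    · intro i
      split_ifs <;> positivity
    · intro i hi
      by_cases hi0 : i = i0
      · rw [if_pos hi0]
        refine h1.trans (le_of_eq ?_)
        ring
      · have hij' : i = j := by
          simp only [Finset.mem_insert, Finset.mem_singleton] at hi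
          rcases hi with h | h
          · exact absurd h hi0
          · exact h
        rw [if_neg hi0, if_pos hij']
        refine h2.trans (le_of_eq ?_)
        ring
    · refine h2.trans (le_of_eq ?_)
      ring
    · refine lt_of_le_of_lt (le_of_eq ?_) h3
      ring
  cases hf with
  | two =>
    apply start2_E i0
    refine core_E i0 j hij (by norm_num) (by norm_num) (by norm_num) ha0 hρ v v' hv1 hv2 haa hv3' ?_
    exact good_congr hG (by ring) fun _ => rfl
  | five =>
    apply start5_E i0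
    refine core_E i0 j hij (by norm_num) (by norm_num) (by norm_num) ha0 hρ v v' hv1 hv2 haa hv3' ?_
    exact good_congr hG (by ring) fun _ => rfl

/-- independence on the simplex -/
theorem simplex_S {ι σ : Type} [Fintype ι] [Fintype σ] [DecidableEq σ] {a0 δ : ℝ}
    (hf : First a0 δ) {m : ℕ} (hσ : Fintype.card σ = m + 2) (M d : ℕ) (k : ℕ) {ρ : ℝ} (hρ : 2 ≤ ρ)
    (h1 : ρ ^ (m + 1) * (a0 + k * δ / ρ) ^ 2 ≤ (Fintype.card ι : ℝ))
    (h2 : ρ ^ (m + 2) * (a0 + k * δ / ρ) ≤ (Fintype.card ι : ℝ))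
    (h3 : a0 = 5 / 2 → (Fintype.card ι : ℝ) * M ≤ ρ ^ (m + 1) * (a0 + k * δ / ρ) *
      (d - 6 - ρ - (a0 + k * δ / ρ) - m * (1 + ρ)))
    (h3' : a0 = 2 → (Fintype.card ι : ℝ) * M ≤ ρ ^ (m + 1) * (a0 + k * δ / ρ) *
      (d - 7 / 2 - ρ - (a0 + k * δ / ρ) - m * (1 + ρ))) :
    SurS (fun _ : ι => M) (RegS (0 : ℝ) d (fun _ : σ => 0) (fun _ => 1)) := by
  have ha0 := hf.ge
  have hδ := hf.pos
  have hρ0 : 0 < ρ := by linarith
  obtain ⟨a, ha⟩ : ∃ a : ℝ, a = a0 + k * δ / ρ := ⟨_, rfl⟩
  have haa : a0 ≤ a := by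
    rw [ha]
    have : 0 ≤ k * δ / ρ := by positivity
    linarith
  rw [← ha] at h1 h2 h3 h3'
  have ha' : 0 < a := by linarith
  obtain ⟨i0, j, hij⟩ : ∃ i0 j : σ, i0 ≠ j := by
    have : 1 < Fintype.card σ := by omega
    obtain ⟨i0, j, h⟩ := Fintype.one_lt_card_iff.1 this
    exact ⟨i0, j, h⟩
  obtain ⟨v, v', hv1, hv2, hv3⟩ := exists_vv hf k hρ
  have hv3' : a0 * ρ * (a - a0) = v' - a0 * v / 2 := by
    rw [← hv3, ha]
    ring
  have hρa : 4 ≤ ρ * a := by nlinarith
  have hpm : 0 < ρ ^ m := by positivity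
  have hG : ∀ c : ℝ, (Fintype.card ι : ℝ) * M ≤ ρ ^ (m + 1) * a * (c - ρ - a - m * (1 + ρ)) - ρ ^ m →
      SAsm.Good (fun _ : ι => M) (ρ * a * (c - ρ - a))
      (fun i => if i = i0 then ρ * a ^ 2 else if i = j then ρ ^ 2 * a else ρ * a) := by
    intro c hc
    refine rest_S hρ m {i0, j} _ _ (ρ * a) ?_ ?_ (by nlinarith) ?_ ?_ ?_ ?_ ?_
    · rw [Finset.card_pair hij]; omega
    · intro i hi
      simp only [Finset.mem_insert, Finset.mem_singleton, not_or] at hi
      rw [if_neg hi.1, if_neg hi.2]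
    · intro i
      split_ifs <;> positivity
    · intro i hi
      by_cases hi0 : i = i0
      · rw [if_pos hi0]
        refine le_trans (le_of_eq ?_) h1
        ring
      · have hij' : i = j := by
          simp only [Finset.mem_insert, Finset.mem_singleton] at hi
          rcases hi with h | h
          · exact absurd h hi0
          · exact h
        rw [if_neg hi0, if_pos hij']
        refine le_trans (le_of_eq ?_) h2
        ring
    · have h0 : (0 : ℝ) ≤ (Fintype.card ι : ℝ) := Nat.cast_nonneg _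
      have : ρ ^ (m + 1) * (ρ * a) = ρ ^ (m + 2) * a := by ring
      rw [this]
      nlinarith
    · intro _
      refine le_trans (le_of_eq ?_) h2
      ring
    · refine hc.trans ?_
      have : ρ ^ m * (ρ * a * (c - ρ - a) - m * (1 + ρ) * (ρ * a) - 1) + 1 -
          (ρ ^ (m + 1) * a * (c - ρ - a - m * (1 + ρ)) - ρ ^ m) = 1 := by ring
      linarith
  cases hf with
  | two =>
    apply start2_S i0
    refine core_S i0 j hij (by norm_num) (by norm_num) (by norm_num) (by norm_num) ha0 hρ v v' hv1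
      hv2 haa hv3' ?_
    refine goodS_congr (hG (d - 13 / 4) ?_) (by ring) fun _ => rfl
    refine (h3' rfl).trans ?_
    have e : ρ ^ (m + 1) * a * (d - 13 / 4 - ρ - a - m * (1 + ρ)) - ρ ^ m -
        ρ ^ (m + 1) * a * (d - 7 / 2 - ρ - a - m * (1 + ρ)) = ρ ^ m * (ρ * a / 4 - 1) := by ring
    have : 0 ≤ ρ ^ m * (ρ * a / 4 - 1) := mul_nonneg hpm.le (by linarith)
    linarith
  | five =>
    apply start5_S i0
    refine core_S i0 j hij (by norm_num) (by norm_num) (by norm_num) (by norm_num) ha0 hρ v v' hv1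
      hv2 haa hv3' ?_
    refine goodS_congr (hG (d - 57 / 10) ?_) (by ring) fun _ => rfl
    refine (h3 rfl).trans ?_
    have e : ρ ^ (m + 1) * a * (d - 57 / 10 - ρ - a - m * (1 + ρ)) - ρ ^ m -
        ρ ^ (m + 1) * a * (d - 6 - ρ - a - m * (1 + ρ)) = ρ ^ m * (ρ * a * (3 / 10) - 1) := by ring
    have : 0 ≤ ρ ^ m * (ρ * a * (3 / 10) - 1) := mul_nonneg hpm.le (by linarith)
    linarith

end Pool.Agent.K4H42
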