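import Pool.Agent.K4H42.WA

/-!
# Emptiness and independence on the simplex, in terms of the slope `t`
-/

set_option autoImplicit false

namespace Pool.Agent.K4H42

open Finset Pool.Agent.TH603.EL Pool.Agent.TH3.IR

theorem empS_of_par {a0 δ t : ℝ} (hf : First a0 δ) {m r : ℕ} (M d k : ℕ) {ρ : ℝ} (hρ : 2 ≤ ρ)
    (haa : a0 ≤ a0 + k * δ / ρ)
    (h1 : (r : ℝ) ≤ ρ ^ (m + 1) * (a0 + k * δ / ρ) ^ 2)
    (h2 : (r : ℝ) ≤ ρ ^ (m + 2) * (a0 + k * δ / ρ))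
    (h3 : ρ ^ (m + 1) * (a0 + k * δ / ρ) * t = r) (hd : (d : ℝ) < t * M) :
    EmpS (fun _ : Fin r => M) (RegS (0 : ℝ) d (fun _ : Fin (m + 2) => 0) (fun _ => 1)) := by
  have ha0 := hf.ge
  refine simplex_E hf (m := m) (by simp) d k hρ (by simpa using h1) (by simpa using h2) ?_
  rw [Finset.sum_const, Finset.card_univ, Fintype.card_fin, nsmul_eq_mul, ← h3, mul_assoc _ t]
  have : 0 < ρ ^ (m + 1) * (a0 + k * δ / ρ) := by
    have h4 : 0 < a0 + k * δ / ρ := by linarith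
    have h5 : 0 < ρ := by linarith
    positivity
  exact mul_lt_mul_of_pos_left hd this

theorem empS_first {a0 δ t : ℝ} (hf : First a0 δ) {m r : ℕ} (M d : ℕ) (ht : a0 ≤ t)
    (hr : t ^ (m + 2) * (t + δ / a0) ≤ r) (hd : (d : ℝ) < t * M) :
    EmpS (fun _ : Fin r => M) (RegS (0 : ℝ) d (fun _ : Fin (m + 2) => 0) (fun _ => 1)) := by
  obtain ⟨k, ρ, hρ, haa, h1, h2, h3⟩ := par_E m hf.ge hf.pos ht hr
  exact empS_of_par hf M d k hρ haa h1 h2 h3 hd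

theorem empS_pow {m : ℕ} (M d : ℕ) (hd : (d : ℝ) < 2 * M) :
    EmpS (fun _ : Fin (2 ^ (m + 3)) => M)
      (RegS (0 : ℝ) d (fun _ : Fin (m + 2) => 0) (fun _ => 1)) := by
  refine empS_of_par (t := 2) First.two M d 0 (ρ := 2) le_rfl ?_ ?_ ?_ ?_ hd
  · norm_num
  · push_cast
    norm_num
    ring_nf
    exact le_rfl
  · push_cast
    norm_num
    ring_nf
    exact le_rfl
  · push_cast
    norm_num
    ring

theorem surS_of_par {a0 δ s t : ℝ} (hf : First a0 δ) {m r : ℕ} (M d k : ℕ) {ρ : ℝ} (hρ : 2 ≤ ρ)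
    (hρt : ρ ≤ t) (hat : a0 + k * δ / ρ ≤ t) (hst : s ≤ t)
    (h1 : ρ ^ (m + 1) * (a0 + k * δ / ρ) ^ 2 ≤ (r : ℝ))
    (h2 : ρ ^ (m + 2) * (a0 + k * δ / ρ) ≤ (r : ℝ))
    (h3 : ρ ^ (m + 1) * (a0 + k * δ / ρ) * s = r)
    (hd : a0 = 5 / 2 → t * (M + (m + 3) - 1) + (m + 3) + 3 ≤ d)
    (hd' : a0 = 2 → t * (M + (m + 3) - 1) + (m + 3) + 1 / 2 ≤ d) :
    SurS (fun _ : Fin r => M) (RegS (0 : ℝ) d (fun _ : Fin (m + 2) => 0) (fun _ => 1)) := by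
  have ha0 := hf.ge
  have hδ := hf.pos
  have hρ0 : 0 < ρ := by linarith
  have ha : 0 < a0 + k * δ / ρ := by positivity
  have hP : 0 < ρ ^ (m + 1) * (a0 + k * δ / ρ) := by positivity
  have hM : (0 : ℝ) ≤ M := Nat.cast_nonneg _
  have hm : (0 : ℝ) ≤ m := Nat.cast_nonneg _
  have hMs : (M : ℝ) * s ≤ M * t := mul_le_mul_of_nonneg_left hst hM
  have hmt : (m : ℝ) * ρ ≤ m * t := mul_le_mul_of_nonneg_left hρt hm
  refine simplex_S hf (m := m) (by simp) M d k hρ (by simpa using h1) (by simpa using h2) ?_ ?_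
  · intro h
    have := hd h
    rw [Fintype.card_fin, ← h3, mul_assoc _ s]
    refine mul_le_mul_of_nonneg_left ?_ hP.le
    nlinarith
  · intro h
    have := hd' h
    rw [Fintype.card_fin, ← h3, mul_assoc _ s]
    refine mul_le_mul_of_nonneg_left ?_ hP.le
    nlinarith

/-- independence, `r ≤ 2 t ^ (n - 1)` -/
theorem surS_zero {m r : ℕ} (M d : ℕ) {t : ℝ} (hr0 : 2 ^ (m + 3) ≤ r) (hr : (r : ℝ) ≤ 2 * t ^ (m + 2))
    (ht0 : 0 ≤ t) (hd : t * (M + (m + 3) - 1) + (m + 3) + 1 / 2 ≤ d) :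
    SurS (fun _ : Fin r => M) (RegS (0 : ℝ) d (fun _ : Fin (m + 2) => 0) (fun _ => 1)) := by
  have hr0' : (2 : ℝ) ^ (m + 3) ≤ r := by exact_mod_cast hr0
  have hrpos : (0 : ℝ) < r := lt_of_lt_of_le (by positivity) hr0'
  obtain ⟨ρ, hρ⟩ : ∃ ρ : ℝ, ρ = ((r : ℝ) / 2) ^ ((1 : ℝ) / ((m + 2 : ℕ) : ℝ)) := ⟨_, rfl⟩
  have hρ0 : 0 < ρ := by rw [hρ]; positivity
  have hρm : ρ ^ (m + 2) = r / 2 := by
    rw [hρ, one_div, Real.rpow_inv_natCast_pow (by positivity) (by omega)]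
  have hρ2 : 2 ≤ ρ := by
    by_contra hcon
    push Not at hcon
    have h1 : ρ ^ (m + 2) < 2 ^ (m + 2) := pow_lt_pow_left₀ hcon hρ0.le (by omega)
    rw [hρm] at h1
    have : (2 : ℝ) ^ (m + 3) = 2 * 2 ^ (m + 2) := by ring
    linarith
  have hρt : ρ ≤ t := by
    by_contra hcon
    push Not at hcon
    have h1 : t ^ (m + 2) < ρ ^ (m + 2) := pow_lt_pow_left₀ hcon ht0 (by omega)
    rw [hρm] at h1
    linarith
  have e : (2 : ℝ) + ((0 : ℕ) : ℝ) * (1 / 2) / ρ = 2 := by push_cast; ring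
  have hρr : ρ ^ (m + 1) * ρ * 2 = r := by
    have : ρ ^ (m + 1) * ρ = ρ ^ (m + 2) := by ring
    rw [this, hρm]; ring
  refine surS_of_par (s := ρ) First.two M d 0 hρ2 hρt ?_ hρt ?_ ?_ ?_ (fun h => ?_) (fun _ => hd)
  · rw [e]; linarith
  · rw [e, ← hρr]
    have : 0 < ρ ^ (m + 1) := by positivity
    nlinarith
  · rw [e, ← hρr]
    exact le_of_eq (by ring)
  · rw [e, ← hρr]
    ring
  · norm_num at h

theorem surS_val {a0 δ t s : ℝ} (hf : First a0 δ) {m r : ℕ} (M d : ℕ) (hs : a0 ≤ s)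
    (hs2 : 2 ≤ s - δ / a0) (hst : s ≤ t) (hr : (r : ℝ) = s ^ (m + 2) * (s - δ / a0))
    (hd : a0 = 5 / 2 → t * (M + (m + 3) - 1) + (m + 3) + 3 ≤ d)
    (hd' : a0 = 2 → t * (M + (m + 3) - 1) + (m + 3) + 1 / 2 ≤ d) :
    SurS (fun _ : Fin r => M) (RegS (0 : ℝ) d (fun _ : Fin (m + 2) => 0) (fun _ => 1)) := by
  obtain ⟨k, ρ, hρ, hρs, has, h1, h2, h3⟩ := par_S_eq m hf.ge hf.pos hs hs2 hr
  exact surS_of_par hf M d k hρ (hρs.trans hst) (has.trans hst) hst h1 h2 h3 hd hd'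

/-- independence, `r ≤ t ^ (n - 1) (t - 1 / 4)` -/
theorem surS_quarter {m r : ℕ} (M d : ℕ) {t : ℝ} (hr0 : 2 ^ (m + 3) ≤ r)
    (hr : (r : ℝ) ≤ t ^ (m + 2) * (t - 1 / 4)) (ht0 : 0 ≤ t)
    (hd : t * (M + (m + 3) - 1) + (m + 3) + 1 / 2 ≤ d) :
    SurS (fun _ : Fin r => M) (RegS (0 : ℝ) d (fun _ : Fin (m + 2) => 0) (fun _ => 1)) := by
  rcases le_total t (9 / 4) with ht | ht
  · refine surS_zero M d hr0 (hr.trans ?_) ht0 hd
    have : 0 ≤ t ^ (m + 2) := by positivity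
    nlinarith
  rcases le_total (r : ℝ) (2 * (9 / 4) ^ (m + 2)) with h | h
  · refine surS_zero M d hr0 (h.trans ?_) ht0 hd
    have : (9 / 4 : ℝ) ^ (m + 2) ≤ t ^ (m + 2) := pow_le_pow_left₀ (by norm_num) ht _
    linarith
  obtain ⟨s, hs1, hs2, hs3⟩ := exists_t (δ := 1 / 4) m ht (r := r)
    (le_trans (le_of_eq (by norm_num; ring)) h) hr
  refine surS_val (s := s) First.two M d (by linarith) ?_ hs2 ?_ (fun h => ?_) (fun _ => hd)
  · norm_num; linarith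
  · rw [hs3]; norm_num
  · norm_num at h

/-- independence, `r ≤ t ^ (n - 1) (t - 1 / 25)` -/
theorem surS_fine {m r : ℕ} (M d : ℕ) {t : ℝ} (hr0 : 2 ^ (m + 3) ≤ r) (ht : 5 / 2 ≤ t)
    (hr : (r : ℝ) ≤ t ^ (m + 2) * (t - 1 / 25))
    (hd : t * (M + (m + 3) - 1) + (m + 3) + 3 ≤ d) :
    SurS (fun _ : Fin r => M) (RegS (0 : ℝ) d (fun _ : Fin (m + 2) => 0) (fun _ => 1)) := by
  have ht0 : 0 ≤ t := by linarith
  rcases le_total (r : ℝ) ((5 / 2) ^ (m + 2) * (9 / 4)) with h | h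
  · refine surS_quarter M d hr0 (h.trans ?_) ht0 (by linarith)
    have : (5 / 2 : ℝ) ^ (m + 2) ≤ t ^ (m + 2) := pow_le_pow_left₀ (by norm_num) ht _
    have h2 : (0 : ℝ) < (5 / 2) ^ (m + 2) := by positivity
    nlinarith
  rcases le_total (r : ℝ) ((5 / 2) ^ (m + 2) * (5 / 2 - 1 / 25)) with h' | h'
  · -- `a = 5 / 2`
    have hrpos : (0 : ℝ) < r := lt_of_lt_of_le (by positivity) h
    obtain ⟨ρ, hρ⟩ : ∃ ρ : ℝ, ρ = ((r : ℝ) * (4 / 25)) ^ ((1 : ℝ) / ((m + 1 : ℕ) : ℝ)) := ⟨_, rfl⟩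
    have hρ0 : 0 < ρ := by rw [hρ]; positivity
    have hρm : ρ ^ (m + 1) = r * (4 / 25) := by
      rw [hρ, one_div, Real.rpow_inv_natCast_pow (by positivity) (by omega)]
    have hρ2 : 2 ≤ ρ := by
      by_contra hcon
      push Not at hcon
      have h1 : ρ ^ (m + 1) < 2 ^ (m + 1) := pow_lt_pow_left₀ hcon hρ0.le (by omega)
      rw [hρm] at h1
      have h2 : (2 : ℝ) ^ m ≤ (5 / 2) ^ m := pow_le_pow_left₀ (by norm_num) (by norm_num) _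
      have h3 : (2 : ℝ) ^ (m + 1) = 2 * 2 ^ m := by ring
      have h4 : (5 / 2 : ℝ) ^ (m + 2) = 25 / 4 * (5 / 2) ^ m := by ring
      rw [h4] at h
      have h5 : (0 : ℝ) < 2 ^ m := by positivity
      linarith
    have hρ5 : ρ ≤ 5 / 2 := by
      by_contra hcon
      push Not at hcon
      have h1 : (5 / 2 : ℝ) ^ (m + 1) < ρ ^ (m + 1) :=
        pow_lt_pow_left₀ hcon (by norm_num) (by omega)
      rw [hρm] at h1
      have h4 : (5 / 2 : ℝ) ^ (m + 2) = 5 / 2 * (5 / 2) ^ (m + 1) := by ring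
      rw [h4] at h'
      have h5 : (0 : ℝ) < (5 / 2) ^ (m + 1) := by positivity
      linarith
    have e : (5 / 2 : ℝ) + ((0 : ℕ) : ℝ) * (1 / 10) / ρ = 5 / 2 := by push_cast; ring
    have hρr : ρ ^ (m + 1) * (25 / 4) = r := by rw [hρm]; ring
    refine surS_of_par (s := 5 / 2) First.five M d 0 hρ2 (hρ5.trans ht) ?_ ht ?_ ?_ ?_
      (fun _ => hd) (fun h => ?_)
    · rw [e]; exact ht
    · rw [e, ← hρr]
      exact le_of_eq (by ring)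
    · rw [e, ← hρr]
      have : 0 < ρ ^ (m + 1) := by positivity
      have e2 : ρ ^ (m + 2) = ρ ^ (m + 1) * ρ := by ring
      rw [e2]
      nlinarith
    · rw [e, ← hρr]
      ring
    · norm_num at h
  obtain ⟨s, hs1, hs2, hs3⟩ := exists_t (δ := 1 / 25) m ht (r := r) h' hr
  refine surS_val (s := s) First.five M d hs1 ?_ hs2 ?_ (fun _ => hd) (fun h => ?_)
  · norm_num; linarith
  · rw [hs3]; norm_num
  · norm_num at h

end Pool.Agent.K4H42
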