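import Pool.Agent.K4H42.WM

/-!
# Fewer than `2 ^ n` points: emptiness on the simplex by a chain of integral flattenings

Every height coordinate is flattened once. The widths of the regions are `d` times the members of a
chain of integers `1 = c 0 ≤ c 1 ≤ … ≤ c N = M`, and the coordinate treated at the step `k` gets the
factor `c k / c (k - 1)`.
-/

set_option autoImplicit false

namespace Pool.Agent.K4H42

open Finset Pool.Agent.TH603.EL Pool.Agent.TH3.IR

/-- regions whose coordinates in `T` have the sums of slopes `s i` and whose other coordinates have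
the left slope `0` and the right slope `c` -/
def GoodP {ι σ : Type} [Fintype σ] (w : ι → ℕ) (W c : ℝ) (T : Finset σ) (s : σ → ℝ) : Prop :=
  ∀ (L R : ℝ) (μ ν : σ → ℝ), (∀ i, 0 ≤ μ i) → (∀ i, 0 ≤ ν i) → R - L = W →
    (∀ i ∈ T, μ i + ν i = s i) → (∀ i, i ∉ T → μ i = 0 ∧ ν i = c) → EmpS w (RegS L R μ ν)

/-- the first flattening at the coordinate `j` -/
theorem GoodP.step {ι σ : Type} [Fintype σ] [DecidableEq σ] {w : ι → ℕ} {W c : ℝ} {T : Finset σ}
    {s : σ → ℝ} (hc : 0 < c) (hs : ∀ i ∈ T, 0 < s i) {j : σ} (hj : j ∉ T) (v : ℕ) (hv : c ≤ v)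
    (H : GoodP w (v / c * W) v (insert j T)
      (Function.update (fun i => v / c * s i) j ((v : ℝ) / c * v))) :
    GoodP w W c T s := by
  intro L R μ ν hμ hν hW hsum hout
  obtain ⟨hμj, hνj⟩ := hout j hj
  have hpos : ∀ i, 0 < μ i + ν i := by
    intro i
    by_cases hi : i ∈ T
    · rw [hsum i hi]; exact hs i hi
    · obtain ⟨h1, h2⟩ := hout i hi
      rw [h1, h2, zero_add]; exact hc
  have hc' : c ≠ 0 := hc.ne'
  have hv0 : (0 : ℝ) ≤ v := Nat.cast_nonneg _
  have hvc : (0 : ℝ) ≤ (v : ℝ) - c := by linarith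
  refine EmpS_flat hμ hν j (hpos j) hpos (v : ℤ) (by rw [hνj]; exact_mod_cast hv) ?_
  have e0 : ((v : ℤ) : ℝ) = (v : ℝ) := Int.cast_natCast v
  rw [e0]
  apply H
  · intro i
    by_cases hi : i = j
    · subst hi
      rw [Function.update_self, hμj, zero_add]
      exact hv0
    · rw [Function.update_of_ne hi]
      exact hμ i
  · intro i
    by_cases hi : i = j
    · subst hi
      rw [Function.update_self, hμj, hνj, zero_add, zero_add]
      exact div_nonneg (mul_nonneg hv0 hvc) hc.le
    · rw [Function.update_of_ne hi, hμj, hνj, zero_add, zero_add]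
      exact div_nonneg (add_nonneg (mul_nonneg (hν i) hv0) (mul_nonneg (hμ i) hvc)) hc.le
  · rw [hμj, hνj, zero_add, zero_add, ← hW]
    field_simp
    ring
  · intro i hi
    by_cases hij : i = j
    · subst hij
      rw [Function.update_self, Function.update_self, Function.update_self, hμj, hνj, zero_add,
        zero_add]
      field_simp
      ring
    · rw [Function.update_of_ne hij, Function.update_of_ne hij, Function.update_of_ne hij, hμj, hνj,
        zero_add, zero_add]
      have hiT : i ∈ T := by
        rcases Finset.mem_insert.1 hi with h | h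
        · exact absurd h hij
        · exact h
      rw [← hsum i hiT]
      field_simp
      ring
  · intro i hi
    rw [Finset.mem_insert] at hi
    push Not at hi
    obtain ⟨h1, h2⟩ := hout i hi.2
    rw [Function.update_of_ne hi.1, Function.update_of_ne hi.1, hμj, hνj, zero_add, zero_add, h1, h2]
    refine ⟨rfl, ?_⟩
    field_simp
    ring

/-- the chain of the widths: `c 0 = 1` (or any other start) and `c (k + 1) = ⌈t * c k⌉` -/
noncomputable def chainFrom (t : ℝ) (c : ℕ) : ℕ → ℕ
  | 0 => c
  | k + 1 => ⌈t * (chainFrom t c k : ℝ)⌉₊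

theorem chainFrom_succ' (t : ℝ) (c : ℕ) (k : ℕ) :
    chainFrom t c (k + 1) = chainFrom t ⌈t * (c : ℝ)⌉₊ k := by
  induction k with
  | zero => rfl
  | succ k ih =>
    show ⌈t * (chainFrom t c (k + 1) : ℝ)⌉₊ = ⌈t * (chainFrom t ⌈t * (c : ℝ)⌉₊ k : ℝ)⌉₊
    rw [ih]

theorem le_chainFrom {t : ℝ} (ht : 1 ≤ t) (c : ℕ) (k : ℕ) : c ≤ chainFrom t c k := by
  induction k with
  | zero => exact le_rfl
  | succ k ih =>
    refine ih.trans ?_
    have h1 : (chainFrom t c k : ℝ) ≤ t * (chainFrom t c k : ℝ) := by
      have : (0 : ℝ) ≤ chainFrom t c k := Nat.cast_nonneg _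
      nlinarith
    exact_mod_cast h1.trans (Nat.le_ceil _)

/-- the induction over the coordinates which have not been flattened -/
theorem goodP_rest {ι σ : Type} [Fintype ι] [Fintype σ] [DecidableEq σ] {w : ι → ℕ} {M : ℕ}
    (hM : 1 ≤ M) (hMr : M ≤ Fintype.card ι) (k : ℕ) :
    ∀ (T : Finset σ) (W : ℝ) (s : σ → ℝ) (c : ℕ), T.card + (k + 1) = Fintype.card σ → 1 ≤ c →
      (∀ i ∈ T, 0 < s i) → (∀ i ∈ T, (Fintype.card ι : ℝ) ≤ (M : ℝ) / c * s i) →
      chainFrom ((Fintype.card ι : ℝ) / M) c (k + 1) ≤ M →
      (M : ℝ) / c * W < ∑ i, (w i : ℝ) → GoodP w W c T s := by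
  have hM0 : (0 : ℝ) < M := by exact_mod_cast hM
  have hr0 : (0 : ℝ) < Fintype.card ι := by
    have : (0 : ℝ) < M := hM0
    have h2 : (M : ℝ) ≤ Fintype.card ι := by exact_mod_cast hMr
    linarith
  have ht1 : (1 : ℝ) ≤ (Fintype.card ι : ℝ) / M := by
    rw [le_div_iff₀ hM0, one_mul]
    exact_mod_cast hMr
  induction k with
  | zero =>
    intro T W s c hT hc hs hTn hch hw
    have hc0 : (0 : ℝ) < c := by exact_mod_cast hc
    obtain ⟨j, hj⟩ : ∃ j, j ∉ T := by
      by_contra hcon
      push Not at hcon
      have : T = univ := Finset.eq_univ_iff_forall.2 hcon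
      rw [this, Finset.card_univ] at hT
      omega
    have hcard : (insert j T).card = T.card + 1 := Finset.card_insert_of_notMem hj
    have hall : insert j T = univ := (Finset.card_eq_iff_eq_univ _).1 (by omega)
    have hch' : (Fintype.card ι : ℝ) / M * c ≤ M := by
      have h1 : (Fintype.card ι : ℝ) / M * (c : ℝ) ≤
          (⌈(Fintype.card ι : ℝ) / M * (chainFrom ((Fintype.card ι : ℝ) / M) c 0 : ℝ)⌉₊ : ℝ) :=
        Nat.le_ceil _
      have h2 : ((chainFrom ((Fintype.card ι : ℝ) / M) c (0 + 1) : ℕ) : ℝ) ≤ M := by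
        exact_mod_cast hch
      exact h1.trans h2
    have hcM : (c : ℝ) ≤ M := by
      have := mul_le_mul_of_nonneg_right ht1 hc0.le
      linarith
    apply GoodP.step hc0 hs hj M hcM
    intro L R μ ν hμ hν hW hsum _
    apply stFinal hμ hν
    · intro i
      rw [hsum i (by rw [hall]; exact mem_univ i)]
      by_cases hij : i = j
      · subst hij
        rw [Function.update_self]
        have h3 : (Fintype.card ι : ℝ) * c ≤ M * M := by
          rw [div_mul_eq_mul_div, div_le_iff₀ hM0] at hch'
          exact hch'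
        rw [div_mul_eq_mul_div, le_div_iff₀ hc0]
        exact h3
      · rw [Function.update_of_ne hij]
        refine hTn i ?_
        have : i ∈ insert j T := by rw [hall]; exact mem_univ i
        rcases Finset.mem_insert.1 this with h | h
        · exact absurd h hij
        · exact h
    · rw [hW]
      exact hw
  | succ k ih =>
    intro T W s c hT hc hs hTn hch hw
    have hc0 : (0 : ℝ) < c := by exact_mod_cast hc
    obtain ⟨j, hj⟩ : ∃ j, j ∉ T := by
      by_contra hcon
      push Not at hcon
      have : T = univ := Finset.eq_univ_iff_forall.2 hcon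
      rw [this, Finset.card_univ] at hT
      omega
    have hcard : (insert j T).card = T.card + 1 := Finset.card_insert_of_notMem hj
    obtain ⟨v, hvd⟩ : ∃ v : ℕ, v = ⌈(Fintype.card ι : ℝ) / M * (c : ℝ)⌉₊ := ⟨_, rfl⟩
    have hv1 : (Fintype.card ι : ℝ) / M * (c : ℝ) ≤ v := by rw [hvd]; exact Nat.le_ceil _
    have hcv : (c : ℝ) ≤ v := by
      have := mul_le_mul_of_nonneg_right ht1 hc0.le
      linarith
    have hv0 : (0 : ℝ) < v := by linarith
    rw [chainFrom_succ', ← hvd] at hch
    have hvM : v ≤ M := (le_chainFrom ht1 v (k + 1)).trans hch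
    apply GoodP.step hc0 hs hj v hcv
    refine ih (insert j T) _ _ v (by omega) (by
      have : (1 : ℝ) ≤ v := by
        have : (1 : ℝ) ≤ c := by exact_mod_cast hc
        linarith
      exact_mod_cast this) ?_ ?_ hch ?_
    · intro i hi
      by_cases hij : i = j
      · subst hij
        rw [Function.update_self]
        positivity
      · rw [Function.update_of_ne hij]
        have hiT : i ∈ T := by
          rcases Finset.mem_insert.1 hi with h | h
          · exact absurd h hij
          · exact h
        have := hs i hiT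
        positivity
    · intro i hi
      by_cases hij : i = j
      · subst hij
        rw [Function.update_self]
        have e : (M : ℝ) / v * ((v : ℝ) / c * v) = M * v / c := by field_simp
        rw [e, le_div_iff₀ hc0]
        rw [div_mul_eq_mul_div, div_le_iff₀ hM0] at hv1
        linarith
      · rw [Function.update_of_ne hij]
        have hiT : i ∈ T := by
          rcases Finset.mem_insert.1 hi with h | h
          · exact absurd h hij
          · exact h
        refine (hTn i hiT).trans (le_of_eq ?_)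
        field_simp
    · refine lt_of_le_of_lt (le_of_eq ?_) hw
      field_simp

/-- emptiness on the simplex of size `d` -/
theorem empS_chain {ι σ : Type} [Fintype ι] [Fintype σ] [DecidableEq σ] [Nonempty σ] {w : ι → ℕ}
    {M : ℕ} (hM : 1 ≤ M) (hMr : M ≤ Fintype.card ι)
    (hch : chainFrom ((Fintype.card ι : ℝ) / M) 1 (Fintype.card σ) ≤ M) {d : ℕ}
    (hd : (M : ℝ) * d < ∑ i, (w i : ℝ)) :
    EmpS w (RegS (0 : ℝ) d (fun _ : σ => 0) (fun _ => 1)) := by
  obtain ⟨k, hk⟩ : ∃ k, Fintype.card σ = k + 1 :=
    ⟨Fintype.card σ - 1, by have := Fintype.card_pos (α := σ); omega⟩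
  rw [hk] at hch
  have h := goodP_rest (w := w) hM hMr k (∅ : Finset σ) (d : ℝ) (fun _ => 1) 1 (by simp [hk]) le_rfl
    (by simp) (by simp) hch (by
      rw [Nat.cast_one, div_one]
      exact hd)
  refine h 0 d _ _ (fun _ => le_rfl) (fun _ => zero_le_one) (sub_zero _) (by simp) ?_
  intro i _
  simp

end Pool.Agent.K4H42
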