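import Pool.Agent.K4H42.WB
import Pool.Agent.TH3.IR.Window

/-!
# From the simplex to general points of projective space
-/

set_option autoImplicit false

namespace Pool.Agent.K4H42

open Finset MvPolynomial Pool.Agent.TH603.EL Pool.Agent.TH3.IR
open scoped LinearAlgebra.Projectivization
open Pool.Agent.H350R3.MG

/-- emptiness for general points from emptiness on the simplex -/
theorem noForms_of {n r : ℕ} {w : Fin r → ℕ} {d : ℕ}
    (hE : EmpS w (RegS (0 : ℝ) d (fun _ : Fin n => 0) (fun _ => 1))) :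
    ∃ F : MvPolynomial (Fin r × Fin (n + 1)) ℂ, F ≠ 0 ∧ ∀ P : Fin r → Fin (n + 1) → ℂ,
      MvPolynomial.eval (fun q : Fin r × Fin (n + 1) => P q.1 q.2) F ≠ 0 → NoForms w P d := by
  classical
  obtain ⟨G0, hG0, hG⟩ := exists_minor hE
  refine ⟨_, idx_ne_zero hG0, fun P hP G hGd hGw => ?_⟩
  rw [eval_idx] at hP
  apply lau_eq_zero hGd
  refine hG ℂ (fun i => P i 0) (fun i j => P i j.succ) hP (lau G) (lau_support hGd) ?_
  intro i
  have h1 : G ∈ (RingHom.ker (MvPolynomial.eval (Fin.cons 1 (P i) : Fin (n + 2) → ℂ))) ^ w i :=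
    Ideal.pow_right_mono (span_le_ker (P i)) _ (hGw i)
  have h2 := lau_LMS hGd (P := (Fin.cons 1 (P i) : Fin (n + 2) → ℂ)) (by simp) h1
  have e1 : (Fin.cons 1 (P i) : Fin (n + 2) → ℂ) 0 = 1 := rfl
  have e2 : (Fin.cons 1 (P i) : Fin (n + 2) → ℂ) 1 = P i 0 := rfl
  have e3 : ∀ j : Fin n, (Fin.cons 1 (P i) : Fin (n + 2) → ℂ) j.succ.succ = P i j.succ :=
    fun j => rfl
  simp only [e1, e2, e3, div_one] at h2
  exact h2

/-- no forms at a part of the points -/
theorem noForms_castLE {n r r' : ℕ} (h : r ≤ r') {M d : ℕ}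
    (hE : ∃ F : MvPolynomial (Fin r × Fin (n + 1)) ℂ, F ≠ 0 ∧ ∀ P : Fin r → Fin (n + 1) → ℂ,
      MvPolynomial.eval (fun q : Fin r × Fin (n + 1) => P q.1 q.2) F ≠ 0 →
        NoForms (fun _ => M) P d) :
    ∃ F : MvPolynomial (Fin r' × Fin (n + 1)) ℂ, F ≠ 0 ∧ ∀ P : Fin r' → Fin (n + 1) → ℂ,
      MvPolynomial.eval (fun q : Fin r' × Fin (n + 1) => P q.1 q.2) F ≠ 0 →
        NoForms (fun _ => M) P d := by
  obtain ⟨F, hF, hP⟩ := hE
  have hinj : Function.Injective (fun q : Fin r × Fin (n + 1) =>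
      ((Fin.castLE h q.1, q.2) : Fin r' × Fin (n + 1))) := by
    rintro ⟨a, b⟩ ⟨a', b'⟩ hab
    simp only [Prod.mk.injEq] at hab
    obtain ⟨h1, h2⟩ := hab
    rw [Fin.castLE_injective h h1, h2]
  refine ⟨rename _ F, fun h0 => hF (rename_injective _ hinj (h0.trans (map_zero _).symm)),
    fun P hPe G hGd hGw => ?_⟩
  rw [eval_rename] at hPe
  exact hP (fun i => P (Fin.castLE h i)) hPe G hGd fun i => hGw (Fin.castLE h i)

/-- independence for general points from independence on the simplex -/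
theorem indep_of {k r : ℕ} {m d : ℕ}
    (hS : SurS (fun _ : Fin r => m) (RegS (0 : ℝ) d (fun _ : Fin (k + 1) => 0) (fun _ => 1))) :
    ∃ F : MvPolynomial (Fin r × Fin (k + 2)) ℂ, F ≠ 0 ∧ ∀ P : Fin r → Fin (k + 2) → ℂ,
      MvPolynomial.eval (fun q : Fin r × Fin (k + 2) => P q.1 q.2) F ≠ 0 →
      Module.finrank ℂ ↥(Pool.Agent.H932R5.Vd d (fun _ : Fin r => m) P) +
        r * (m + (k + 1)).choose (k + 2) = (d + (k + 2)).choose (k + 2) := by
  classical
  obtain ⟨G, hG0, hG⟩ := exists_minorS hS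
  refine ⟨_, idx_ne_zero hG0, fun P hP => ?_⟩
  rw [eval_idx] at hP
  obtain ⟨T, hT, hTc, hEmp⟩ := hG ℂ (fun i => P i 0) (fun i j => P i j.succ) hP
  have hnc : nc (Fin (k + 1)) (fun _ : Fin r => m) = r * (m + (k + 1)).choose (k + 1 + 1) := by
    unfold nc
    rw [Finset.sum_const, Finset.card_univ, Fintype.card_fin, Fintype.card_fin, smul_eq_mul]
  have hlow := Pool.Agent.H932R5.finrank_ge (K := ℂ) (E := k + 1) d (fun _ : Fin r => m) P
  rw [Finset.sum_const, Finset.card_univ, Fintype.card_fin, smul_eq_mul] at hlow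
  have hup := SMain.upper (n := k + 1) (d := d) (Pool.Agent.H932R5.Vd d (fun _ : Fin r => m) P)
    (fun f hf => (Submodule.mem_inf.1 hf).1) T hT (by
    intro f hf hs
    have hfh : f.IsHomogeneous d := (Submodule.mem_inf.1 hf).1
    refine lau_eq_zero hfh (hEmp (lau f) hs fun i => ?_)
    have h1 : f ∈ (RingHom.ker (MvPolynomial.eval (Fin.cons 1 (P i) : Fin (k + 3) → ℂ))) ^ m := by
      have h2 : f ∈ (Pool.Agent.H932R5.hI (P i)) ^ m := by
        have h3 := (Submodule.mem_inf.1 hf).2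
        rw [Submodule.restrictScalars_mem, Ideal.mem_iInf] at h3
        exact h3 i
      refine Ideal.pow_right_mono ?_ m h2
      unfold Pool.Agent.H932R5.hI
      rw [Ideal.span_le]
      rintro _ ⟨j, rfl⟩
      rw [SetLike.mem_coe, RingHom.mem_ker]
      simp
    have h4 := lau_LMS hfh (P := (Fin.cons 1 (P i) : Fin (k + 3) → ℂ)) one_ne_zero h1
    have e1 : (Fin.cons 1 (P i) : Fin (k + 3) → ℂ) 1 / (Fin.cons 1 (P i) : Fin (k + 3) → ℂ) 0 =
        P i 0 := by
      show P i 0 / 1 = P i 0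
      rw [div_one]
    have e2 : (fun j : Fin (k + 1) => (Fin.cons 1 (P i) : Fin (k + 3) → ℂ) j.succ.succ /
        (Fin.cons 1 (P i) : Fin (k + 3) → ℂ) 0) = fun j => P i j.succ := by
      funext j
      show P i j.succ / 1 = P i j.succ
      rw [div_one]
    rw [e1, e2] at h4
    exact h4)
  rw [hTc, hnc] at hup
  have e4 : d + (k + 2) = d + (k + 1) + 1 := by omega
  have e5 : k + 1 + 1 = k + 2 := by omega
  rw [e4]
  rw [e5] at hup hlow
  omega

/-- the emptiness, in terms of points of projective space -/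
theorem gen_empty {n r : ℕ} {M d : ℕ}
    (hE : ∃ F : MvPolynomial (Fin r × Fin (n + 1)) ℂ, F ≠ 0 ∧ ∀ P : Fin r → Fin (n + 1) → ℂ,
      MvPolynomial.eval (fun q : Fin r × Fin (n + 1) => P q.1 q.2) F ≠ 0 →
        NoForms (fun _ => M) P d) :
    Generally (fun P : Fin r → ℙ ℂ (Fin (n + 2) → ℂ) =>
      pforms d (fun _ => M) P = ⊥ ∧ (d + (n + 1)).choose (n + 1) ≤ r * (M + n).choose (n + 1)) := by
  obtain ⟨F, hF, h⟩ := hE
  refine generally_of_affine F hF fun P hv hP => ?_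
  have h3 := vd_eq_bot (h P hP)
  rw [pforms_cons]
  refine ⟨h3, ?_⟩
  have h4 := Pool.Agent.H932R5.finrank_ge d (fun _ => M) P
  rw [h3, finrank_bot, Finset.sum_const, Finset.card_univ, Fintype.card_fin, smul_eq_mul] at h4
  exact h4

/-- the independence, in terms of points of projective space -/
theorem gen_indep {k r : ℕ} {m d : ℕ}
    (hS : SurS (fun _ : Fin r => m) (RegS (0 : ℝ) d (fun _ : Fin (k + 1) => 0) (fun _ => 1))) :
    Generally (fun P : Fin r → ℙ ℂ (Fin (k + 3) → ℂ) =>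
      Module.finrank ℂ ↥(pforms d (fun _ => m) P) +
        r * (m + (k + 1)).choose (k + 2) = (d + (k + 2)).choose (k + 2)) := by
  obtain ⟨F, hF, h⟩ := indep_of hS
  refine generally_of_affine F hF fun P hv hP => ?_
  rw [pforms_cons]
  exact h P hP

end Pool.Agent.K4H42
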